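import Pool.Agent.Lib.MP_7d48f8_nt.V.Vau

/-! Upper bounds for the mean number of large prime factors. -/

noncomputable section

namespace Pool.Agent.Lib.MP_7d48f8_nt

open Finset MeasureTheory Filter Topology

/-- The mean value of `∑ G (sz p)` over the prime factors is asymptotically at most `k`. -/
def Big (G : ℝ → ℝ) (k : ℝ) : Prop :=
  ∀ w, Bump w → ∀ δ : ℝ, 0 < δ → ∀ᶠ x : ℝ in atTop,
    ∑ n ∈ II x, w ((n - x) / √x) * ∑ p ∈ n.primeFactors, G (sz x p) ≤ (k * (∫ t, w t) + δ) * √x

/-- The tent of height `1` with corners `a < n < b`. -/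
def tent (a n b s : ℝ) : ℝ := max 0 (min ((s - a) / (n - a)) ((b - s) / (b - n)))

theorem big_add {G H : ℝ → ℝ} {k l : ℝ} (hG : Big G k) (hH : Big H l) :
    Big (fun t => G t + H t) (k + l) := by
  intro w hw δ hδ
  filter_upwards [hG w hw (δ / 2) (half_pos hδ), hH w hw (δ / 2) (half_pos hδ)] with x h1 h2
  simp only [sum_add_distrib, mul_add]
  linarith

theorem big_smul {G : ℝ → ℝ} {k c : ℝ} (hc : 0 ≤ c) (hG : Big G k) :
    Big (fun t => c * G t) (c * k) := by
  intro w hw δ hδ
  filter_upwards [hG w hw (δ / (c + 1)) (by positivity)] with x h1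
  have h2 : c * (δ / (c + 1)) ≤ δ := by
    rw [← mul_div_assoc, div_le_iff₀ (by positivity)]
    linarith
  simp only [← mul_sum, mul_left_comm _ c]
  refine (mul_le_mul_of_nonneg_left h1 hc).trans ?_
  rw [← mul_assoc]
  exact mul_le_mul_of_nonneg_right (by linarith) (Real.sqrt_nonneg x)

open ArithmeticFunction in
theorem big_ex {w : ℝ → ℝ} (hw : Bump w) {g : ℝ → ℝ} (h0 : ∀ t, 0 ≤ g t) {x : ℝ} (hx : 1 ≤ x) :
    ∑ n ∈ II x, w ((n - x) / √x) * ∑ p ∈ n.primeFactors, sz x p * g (sz x p) ≤
      ∑ d ∈ Icc 1 ⌊2 * x⌋₊, vonMangoldt d * g (sz x d) / Real.log (2 * x) * NN w x d := by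
  have hL := exc_log hx
  simp only [NN, sum_filter, mul_sum]
  rw [sum_comm]
  refine sum_le_sum fun n hn => ?_
  obtain ⟨h1, h2⟩ := str_II hx hn
  have h3 : n.primeFactors ⊆ Icc 1 ⌊2 * x⌋₊ := fun p hp => mem_Icc.2
    ⟨(Nat.prime_of_mem_primeFactors hp).pos, (Nat.le_of_mem_primeFactors hp).trans (Nat.le_floor h2)⟩
  refine le_trans (le_of_eq (sum_congr rfl fun p hp => ?_))
    (sum_le_sum_of_subset_of_nonneg h3 fun d _ _ => ?_)
  · rw [if_pos (Nat.dvd_of_mem_primeFactors hp),
      vonMangoldt_apply_prime (Nat.prime_of_mem_primeFactors hp), mul_div_right_comm, mul_comm]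
    rfl
  · refine mul_nonneg (div_nonneg (mul_nonneg vonMangoldt_nonneg (h0 _)) hL.le) ?_
    split_ifs
    exacts [hw.nonneg _, le_rfl]

open ArithmeticFunction in
theorem big_mer : ∃ C : ℝ, ∀ (g : ℝ → ℝ) (r s x : ℝ), (∀ t, g t ≤ 1) →
    (∀ t, g t ≠ 0 → r ≤ t ∧ t < s) → 1 ≤ x →
    ∑ d ∈ Icc 1 ⌊2 * x⌋₊, vonMangoldt d * g (sz x d) / Real.log (2 * x) / d ≤
      mer_F g r s x + C / Real.log (2 * x) := by
  obtain ⟨f, hf⟩ : ∃ f : ℕ → ℝ, f = fun d => if d.Prime then 0 else vonMangoldt d := ⟨_, rfl⟩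
  have f0 : ∀ d, 0 ≤ f d := fun d => by
    rw [hf]
    dsimp only
    split_ifs
    exacts [le_rfl, vonMangoldt_nonneg]
  have hs : Summable fun d : ℕ => f d / d := by
    refine (vonMangoldt.summable_residueClass_non_primes_div (0 : ZMod 1)).congr fun d => ?_
    rw [hf, vonMangoldt.residueClass,
      Set.indicator_of_mem (show d ∈ {n : ℕ | (n : ZMod 1) = 0} from Subsingleton.elim _ _)]
  refine ⟨∑' d : ℕ, f d / d, fun g r s x h1 hg hx => ?_⟩
  have hL := exc_log hx
  have h3 : ∑ d ∈ Icc 1 ⌊2 * x⌋₊, f d / d ≤ ∑' d : ℕ, f d / d :=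
    hs.sum_le_tsum _ fun d _ => div_nonneg (f0 d) d.cast_nonneg
  have e : mer_F g r s x = ∑ d ∈ Icc 1 ⌊2 * x⌋₊,
      if d.Prime ∧ r ≤ sz x d ∧ sz x d < s then sz x d * g (sz x d) / d else 0 := by
    rw [mer_F, ← sum_filter]
    refine sum_congr ?_ fun _ _ => rfl
    ext d
    simp only [mem_filter, Nat.mem_primesLE, mem_Icc]
    exact ⟨fun h => ⟨⟨h.1.2.pos, h.1.1⟩, h.1.2, h.2⟩, fun h => ⟨⟨h.1.2, h.2.1⟩, h.2.2⟩⟩
  refine le_trans ?_ (add_le_add le_rfl (div_le_div_of_nonneg_right h3 hL.le))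
  rw [e, sum_div, ← sum_add_distrib]
  refine sum_le_sum fun d _ => ?_
  by_cases hd : d.Prime
  · rw [hf]
    simp only [hd, if_true, true_and, zero_div, add_zero]
    split_ifs with h
    · rw [vonMangoldt_apply_prime hd, mul_div_right_comm]
      exact le_rfl
    · rw [not_not.1 (mt (hg _) h), mul_zero, zero_div, zero_div]
  · rw [hf]
    simp only [hd, if_false, false_and, zero_add]
    rw [div_right_comm]
    exact div_le_div_of_nonneg_right (div_le_div_of_nonneg_right
      (mul_le_of_le_one_right vonMangoldt_nonneg (h1 _)) d.cast_nonneg) hL.le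

theorem big_lip {g : ℝ → ℝ} {K r s : ℝ} (hK : ∀ s t, |g s - g t| ≤ K * |s - t|)
    (h0 : ∀ t, 0 ≤ g t) (h1 : ∀ t, g t ≤ 1) (hr : 0.1 ≤ r) (hrs : r < s) (hs : s ≤ 0.5711)
    (hg : ∀ t, g t ≠ 0 → r ≤ t ∧ t < s) : Big (fun t => t * g t) (∫ t in r..s, g t) := by
  intro w hw δ hδ
  have hI := hw.pos
  obtain ⟨η, C, hη, hC, hv⟩ := vau hw hK (fun t => abs_le.2 ⟨by linarith [h0 t], h1 t⟩)
    fun t ht => ⟨hr.trans (hg t ht).1, (hg t ht).2.le.trans hs⟩
  obtain ⟨D, hD⟩ := big_mer
  have hc : Continuous g := (LipschitzWith.of_dist_le' (K := K) hK).continuous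
  have hε : 0 < δ / 3 / ∫ t, w t := by positivity
  have e1 := (mer_gen (by linarith) hrs (by linarith) (by linarith) hc.continuousOn).eventually_le_const
    (lt_add_of_pos_right _ hε)
  have e2 := ((Real.tendsto_log_atTop.comp (tendsto_id.const_mul_atTop two_pos)).const_div_atTop
    D).eventually_le_const hε
  have e3 : ∀ᶠ x : ℝ in atTop, C * x ^ (-η) ≤ δ / 3 :=
    ((tendsto_rpow_neg_atTop hη).const_mul C).eventually_le_const (by linarith)
  filter_upwards [hv, e1, e2, e3, eventually_ge_atTop 1] with x a1 a2 a3 a4 hx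
  have hL := exc_log hx
  have hq := Real.sqrt_nonneg x
  refine (big_ex hw h0 hx).trans ?_
  have e : ∀ d ∈ Icc 1 ⌊2 * x⌋₊,
      ArithmeticFunction.vonMangoldt d * g (sz x d) / Real.log (2 * x) * NN w x d =
      ArithmeticFunction.vonMangoldt d * (g (sz x d) * rr w x d) / Real.log (2 * x) +
        √x * (∫ t, w t) * (ArithmeticFunction.vonMangoldt d * g (sz x d) / Real.log (2 * x) / d) :=
    fun d _ => by rw [rr]; ring
  rw [sum_congr rfl e, sum_add_distrib, ← sum_div, ← mul_sum]
  have b1 := (div_le_iff₀' hL).2 (((le_abs_self _).trans a1).trans_eq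
    (show _ = Real.log (2 * x) * (C * x ^ (-η) * √x) by
      rw [Real.sqrt_eq_rpow, sub_eq_add_neg, Real.rpow_add (by linarith)]; ring))
  have b2 := mul_le_mul_of_nonneg_left
    ((hD g r s x h1 hg hx).trans (add_le_add a2 a3)) (mul_nonneg hq hI.le)
  have b3 := mul_le_mul_of_nonneg_right a4 hq
  have b4 : √x * (∫ t, w t) * (δ / 3 / ∫ t, w t) = δ / 3 * √x := by field_simp
  linarith

theorem tent_nonneg (a n b s : ℝ) : 0 ≤ tent a n b s := le_max_left _ _

theorem tent_left {a n b s : ℝ} (h1 : a < n) (h2 : n < b) (h : s ≤ n) :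
    (s - a) / (n - a) ≤ tent a n b s := by
  refine le_max_of_le_right (le_min le_rfl (le_trans (b := 1) ?_ ?_))
  · rw [div_le_one (by linarith)]
    linarith
  · rw [one_le_div (by linarith)]
    linarith

theorem tent_right {a n b s : ℝ} (h1 : a < n) (h2 : n < b) (h : n ≤ s) :
    (b - s) / (b - n) ≤ tent a n b s := by
  refine le_max_of_le_right (le_min (le_trans (b := 1) ?_ ?_) le_rfl)
  · rw [div_le_one (by linarith)]
    linarith
  · rw [one_le_div (by linarith)]
    linarith

theorem big_int (c d u v : ℝ) : ∫ t in u..v, (c * t + d) = c * ((v ^ 2 - u ^ 2) / 2) + (v - u) * d := by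
  rw [intervalIntegral.integral_add (by apply Continuous.intervalIntegrable; fun_prop)
    intervalIntegrable_const, intervalIntegral.integral_const_mul, integral_id,
    intervalIntegral.integral_const, smul_eq_mul]

theorem big_tent {a n b : ℝ} (h0 : 5 ≤ a) (h1 : a < n) (h2 : n < b) (h3 : b ≤ 201 / 8) :
    Big (fun t => t * tent a n b (44 * t)) ((b - a) / 88) := by
  have p1 : 0 < n - a := by linarith
  have p2 : 0 < b - n := by linarith
  have hc : Continuous fun t : ℝ => tent a n b (44 * t) := by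
    unfold tent
    fun_prop
  have i1 : ∫ t in a / 44..n / 44, tent a n b (44 * t) = (n - a) / 88 := by
    rw [intervalIntegral.integral_congr (g := fun t => 44 / (n - a) * t + -a / (n - a)), big_int]
    · field_simp
      ring
    · intro t ht
      rw [Set.uIcc_of_le (by linarith)] at ht
      have e : 44 / (n - a) * t + -a / (n - a) = (44 * t - a) / (n - a) := by ring
      refine le_antisymm (max_le ?_ ((min_le_left _ _).trans e.ge))
        (e.le.trans (tent_left h1 h2 (by linarith [ht.2])))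
      exact (div_nonneg (by linarith [ht.1]) p1.le).trans e.ge
  have i2 : ∫ t in n / 44..b / 44, tent a n b (44 * t) = (b - n) / 88 := by
    rw [intervalIntegral.integral_congr (g := fun t => -44 / (b - n) * t + b / (b - n)), big_int]
    · field_simp
      ring
    · intro t ht
      rw [Set.uIcc_of_le (by linarith)] at ht
      have e : -44 / (b - n) * t + b / (b - n) = (b - 44 * t) / (b - n) := by ring
      refine le_antisymm (max_le ?_ ((min_le_right _ _).trans e.ge))
        (e.le.trans (tent_right h1 h2 (by linarith [ht.1])))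
      exact (div_nonneg (by linarith [ht.2]) p2.le).trans e.ge
  have i3 : ∫ t in a / 44..b / 44, tent a n b (44 * t) = (b - a) / 88 := by
    rw [← intervalIntegral.integral_add_adjacent_intervals (hc.intervalIntegrable _ (n / 44))
      (hc.intervalIntegrable _ _), i1, i2]
    ring
  rw [← i3]
  refine big_lip (g := fun t => tent a n b (44 * t)) (K := 44 / (n - a) + 44 / (b - n))
    (fun s t => ?_) (fun t => tent_nonneg _ _ _ _) (fun t => max_le zero_le_one ?_) (by linarith)
    (by linarith) (by linarith) fun t ht => ?_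
  · rw [tent, tent, max_comm, max_comm 0]
    refine (abs_max_sub_max_le_abs _ _ _).trans ((abs_min_sub_min_le_max _ _ _ _).trans ?_)
    have e1 : (44 * s - a) / (n - a) - (44 * t - a) / (n - a) = 44 / (n - a) * (s - t) := by ring
    have e2 : (b - 44 * s) / (b - n) - (b - 44 * t) / (b - n) = -(44 / (b - n) * (s - t)) := by ring
    have q1 : 0 < 44 / (n - a) := by positivity
    have q2 : 0 < 44 / (b - n) := by positivity
    rw [e1, e2, abs_neg, abs_mul, abs_mul, abs_of_pos q1, abs_of_pos q2, add_mul]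
    exact max_le_add_of_nonneg (by positivity) (by positivity)
  · rcases le_total (44 * t) n with h | h
    · exact (min_le_left _ _).trans ((div_le_one p1).2 (by linarith))
    · exact (min_le_right _ _).trans ((div_le_one p2).2 (by linarith))
  · have h := lt_max_iff.1 (lt_of_le_of_ne (tent_nonneg a n b (44 * t)) ht.symm)
    obtain ⟨h5, h6⟩ := lt_min_iff.1 (h.resolve_left (lt_irrefl _))
    rw [div_pos_iff_of_pos_right p1] at h5
    rw [div_pos_iff_of_pos_right p2] at h6
    constructor <;> linarith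

end Pool.Agent.Lib.MP_7d48f8_nt
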