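import Pool.Agent.Lib.MP_7d48f8_nt.P.Final
import Pool.Agent.Lib.MP_7d48f8_nt.V.Big

/-! From a certificate with a weight on the large prime to a large prime factor. -/

noncomputable section

namespace Pool.Agent.Lib.MP_7d48f8_nt

open Finset MeasureTheory Filter Topology

/-- `W` does not see elements of size at least `1 / 2`. -/
def Inv (W : Finset ℕ → (ℕ → ℝ) → ℝ) : Prop :=
  ∀ S t, W (S.filter fun p => t p < 1 / 2) t = W S t

/-- As `point_le`.  The gap `γ = 1 - ∑ p ∈ n.primeFactors, sz x p` is positive and at most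
`ex x n + 1 / log (2 x)`.  If `γ < η` add a new element `i` of size `γ` to `n.primeFactors`
(`Function.update`), apply `h`; the filter of the new set is `insert i (sp x n)`; `Reg.lip`, `Reg.congr`,
`G γ = 0`.  Otherwise use `Reg.bdd`.  Note `sz x p < c` as `p ≤ x ^ c < (2 x) ^ c`. -/
theorem point_le2 {W : Finset ℕ → (ℕ → ℝ) → ℝ} (hW : Reg W) (hI : Inv W) {G : ℝ → ℝ} {c η : ℝ}
    (hc : 0 < c) (hη : 0 < η) (hη' : η ≤ c) (hη2 : η ≤ 1 / 2) (hG : ∀ t, 0 ≤ t → 0 ≤ G t)
    (hG' : ∀ t, t < η → G t = 0)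
    (h : ∀ (S : Finset ℕ) (t : ℕ → ℝ), (∀ i ∈ S, 0 < t i ∧ t i < c) → ∑ i ∈ S, t i = 1 →
      (∃ i ∈ S, t i < η) → W S t ≤ ∑ i ∈ S, G (t i)) :
    ∃ C : ℝ, 0 ≤ C ∧ ∀ x : ℝ, 4 ≤ x → ∀ n ∈ II x,
      (∀ p : ℕ, p.Prime → p ∣ n → (p : ℝ) ≤ x ^ c) →
      W (sp x n) (sz x) ≤ ∑ p ∈ n.primeFactors, G (sz x p) +
        C * (ex x n + 1 / Real.log (2 * x)) := by
  obtain ⟨C1, h1⟩ := hW.bdd
  obtain ⟨C2, h2⟩ := hW.lip
  refine ⟨|C1| / η + |C2|, by positivity, fun x hx n hn hp => ?_⟩
  have a1 : 0 ≤ |C1| / η := by positivity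
  have a2 := abs_nonneg C2
  have hx1 : (1 : ℝ) ≤ x := by linarith
  obtain ⟨hn1, hn2⟩ := (mem_II hx1).1 hn
  have hs : √x < x := by
    rw [Real.sqrt_lt' (by linarith)]
    nlinarith
  have hn3 : (n : ℝ) < 2 * x := by linarith
  have hL := exc_log hx1
  have hl2 : Real.log (2 * x) = Real.log 2 + Real.log x :=
    Real.log_mul (by norm_num) (by linarith)
  have h21 := Real.log_two_lt_d9
  have h20 : 0 < Real.log 2 := Real.log_pos (by norm_num)
  have hlt : sz x n < 1 := by
    rw [sz, div_lt_one hL]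
    exact Real.log_lt_log (by linarith) hn3
  have hge : 1 - sz x n ≤ 1 / Real.log (2 * x) := by
    have : Real.log x ≤ Real.log n := Real.log_le_log (by linarith) hn1.le
    rw [sz, sub_le_iff_le_add, ← add_div, le_div_iff₀ hL]
    linarith
  have hP := pat_sp hx1 hn3.le
  have hex := ex_nonneg hx1 n
  obtain ⟨γ, hγ⟩ : ∃ γ, γ = 1 - ∑ p ∈ n.primeFactors, sz x p := ⟨_, rfl⟩
  have g0 : γ = 1 - sz x n + ex x n := by
    rw [hγ, ex]
    ring
  have g1 : 0 < γ := by linarith
  refine le_trans ?_ (add_le_add le_rfl (mul_le_mul_of_nonneg_left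
    (show γ ≤ _ by linarith) (add_nonneg a1 a2)))
  rcases lt_or_ge γ η with hg | hg
  · obtain ⟨i, hi⟩ := Infinite.exists_notMem_finset n.primeFactors
    have hi' : i ∉ sp x n := fun h => hi (mem_filter.1 h).1
    have hne : ∀ j ∈ n.primeFactors, Function.update (sz x) i γ j = sz x j := fun j hj =>
      Function.update_of_ne (fun e : j = i => hi (e ▸ hj)) _ _
    have hne' : ∀ j ∈ sp x n, Function.update (sz x) i γ j = sz x j := fun j hj =>
      hne j (mem_filter.1 hj).1
    have e1 := h (insert i n.primeFactors) (Function.update (sz x) i γ) (fun j hj => ?_) ?_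
      ⟨i, mem_insert_self _ _, by rwa [Function.update_self]⟩
    · have e0 : ((insert i n.primeFactors).filter fun p => Function.update (sz x) i γ p < 1 / 2) =
          insert i (sp x n) := by
        rw [filter_insert, Function.update_self, if_pos (by linarith), sp]
        exact congrArg _ (filter_congr fun j hj => by rw [hne j hj])
      rw [← hI, e0, sum_insert hi, Function.update_self, hG' _ hg, zero_add,
        sum_congr rfl fun j hj => congrArg G (hne j hj)] at e1
      have e2 := h2 (sp x n) (Function.update (sz x) i γ) i hi' ⟨fun j hj => ?_, ?_⟩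
      · rw [Function.update_self, hW.congr (sp x n) _ _ hne'] at e2
        have e3 := (abs_le.1 e2).1
        have e4 := mul_le_mul_of_nonneg_right (le_abs_self C2) g1.le
        have e5 := mul_nonneg a1 g1.le
        linarith
      · rcases mem_insert.1 hj with rfl | hj
        · rw [Function.update_self]
          exact ⟨g1, by linarith⟩
        · rw [hne' j hj]
          exact hP.1 j hj
      · have : ∑ p ∈ sp x n, sz x p ≤ ∑ p ∈ n.primeFactors, sz x p :=
          sum_le_sum_of_subset_of_nonneg (filter_subset _ _) fun p _ _ => exc_sz hx1 p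
        rw [sum_insert hi', Function.update_self, sum_congr rfl hne']
        linarith
    · rcases mem_insert.1 hj with rfl | hj
      · rw [Function.update_self]
        exact ⟨g1, by linarith⟩
      · have hq := Nat.prime_of_mem_primeFactors hj
        have e2 := Real.log_le_log (by exact_mod_cast hq.pos)
          (hp j hq (Nat.dvd_of_mem_primeFactors hj))
        rw [Real.log_rpow (by linarith)] at e2
        rw [hne j hj, sz, div_lt_iff₀ hL, hl2]
        exact ⟨div_pos (Real.log_pos (by exact_mod_cast hq.one_lt)) (hl2 ▸ hL), by nlinarith⟩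
    · rw [sum_insert hi, Function.update_self, sum_congr rfl hne, hγ]
      ring
  · have e1 := (le_abs_self _).trans ((h1 _ _ hP).trans (le_abs_self C1))
    have e2 : 0 ≤ ∑ p ∈ n.primeFactors, G (sz x p) := sum_nonneg fun p _ => hG _ (exc_sz hx1 p)
    have e3 := mul_le_mul_of_nonneg_left hg a1
    have e4 := mul_nonneg a2 g1.le
    rw [div_mul_cancel₀ _ hη.ne'] at e3
    linarith

/-- As `final`. -/
theorem final2 {W : Finset ℕ → (ℕ → ℝ) → ℝ} {m k c η : ℝ} {G : ℝ → ℝ} (hW : Good W m) (hI : Inv W)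
    (hB : Big G k) (hm : k < m) (hc : 0 < c) (hη : 0 < η) (hη' : η ≤ c) (hη2 : η ≤ 1 / 2)
    (hG : ∀ t, 0 ≤ t → 0 ≤ G t) (hG' : ∀ t, t < η → G t = 0)
    (h : ∀ (S : Finset ℕ) (t : ℕ → ℝ), (∀ i ∈ S, 0 < t i ∧ t i < c) → ∑ i ∈ S, t i = 1 →
      (∃ i ∈ S, t i < η) → W S t ≤ ∑ i ∈ S, G (t i)) :
    ∀ᶠ x : ℝ in atTop, ∃ n p : ℕ, x < n ∧ (n : ℝ) ≤ x + √x ∧ p.Prime ∧ p ∣ n ∧ x ^ c < p := by
  obtain ⟨w, hw⟩ := exists_bump
  obtain ⟨C, hC, hp⟩ := point_le2 hW.1 hI hc hη hη' hη2 hG hG' h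
  have hD : 0 < (m - k) * ∫ t, w t := mul_pos (sub_pos.2 hm) hw.pos
  obtain ⟨δ, hδ, hδ'⟩ : ∃ δ : ℝ, 0 < δ ∧ (3 * C + 2) * δ = (m - k) * ∫ t, w t :=
    ⟨((m - k) * ∫ t, w t) / (3 * C + 2), by positivity, by field_simp⟩
  have e1 := (hW.2 w hw).eventually (lt_mem_nhds (sub_lt_self _ hδ))
  have e2 : ∀ᶠ x : ℝ in atTop, 1 / δ ≤ Real.log (2 * x) :=
    (Real.tendsto_log_atTop.comp (tendsto_id.const_mul_atTop two_pos)).eventually_ge_atTop _
  filter_upwards [e1, e2, ex_small hδ, hB w hw δ hδ, eventually_ge_atTop (4 : ℝ)] with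
    x f1 f2 f3 f0 hx
  by_contra hcon
  have hx1 : (1 : ℝ) ≤ x := by linarith
  have hs : 2 ≤ √x := Real.le_sqrt_of_sq_le (by linarith)
  have hL := exc_log hx1
  have f4 : 1 / Real.log (2 * x) ≤ δ := by
    rw [div_le_iff₀ hL]
    rw [div_le_iff₀ hδ] at f2
    linarith
  have f5 : ((II x).card : ℝ) ≤ 2 * √x := by
    have := card_mult hx1 (d := 1) one_pos
    simp only [one_dvd, filter_true, Nat.cast_one, div_one] at this
    linarith
  have f6 : ∑ n ∈ II x, w ((n - x) / √x) * W (sp x n) (sz x) ≤ ∑ n ∈ II x,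
      (w ((n - x) / √x) * ∑ p ∈ n.primeFactors, G (sz x p) + (C * ex x n + C * δ)) := by
    refine sum_le_sum fun n hn => ?_
    have hn' := (mem_II hx1).1 hn
    have g1 := hp x hx n hn fun p hpp hpn => by
      by_contra hlt
      exact hcon ⟨n, p, hn'.1, hn'.2, hpp, hpn, not_le.1 hlt⟩
    have g2 : W (sp x n) (sz x) ≤ ∑ p ∈ n.primeFactors, G (sz x p) + (C * ex x n + C * δ) := by
      rw [← mul_add]
      exact g1.trans (add_le_add le_rfl (mul_le_mul_of_nonneg_left (by linarith) hC))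
    have g3 : 0 ≤ C * ex x n + C * δ :=
      add_nonneg (mul_nonneg hC (ex_nonneg hx1 n)) (by positivity)
    refine (mul_le_mul_of_nonneg_left g2 (hw.nonneg _)).trans ?_
    rw [mul_add]
    exact add_le_add le_rfl (mul_le_of_le_one_left g3 (hw.le_one _))
  rw [sum_add_distrib, sum_add_distrib, ← mul_sum, sum_const, nsmul_eq_mul] at f6
  rw [lt_div_iff₀ (by linarith)] at f1
  have f7 := mul_le_mul_of_nonneg_left f3 hC
  have f8 := mul_le_mul_of_nonneg_right f5 (show 0 ≤ C * δ by positivity)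
  have f9 := congrArg (· * √x) hδ'
  linarith

end Pool.Agent.Lib.MP_7d48f8_nt
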