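import Pool.Agent.Lib.MP_7d48f8_nt.B.Box
import Pool.Agent.Lib.MP_7d48f8_nt.B.Vda

/-! Type I sums: one dyadic block of the smooth variable. -/

noncomputable section

namespace Pool.Agent.Lib.MP_7d48f8_nt

open Finset MeasureTheory Filter Topology

/-- As `vda` (copy its proof), for an initial segment of the dyadic block. -/
theorem vda2 : ∃ C : ℝ, 0 < C ∧ ∀ (A c : ℕ) (γ : ℝ), 0 < A → A ≤ c → c ≤ 2 * A → γ ≠ 0 →
    ‖∑ a ∈ Ico A c, ee (γ / a)‖ ≤ C * (√(|γ| / A) + √((A : ℝ) ^ 3 / |γ|)) := by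
  obtain ⟨C, hC, H⟩ := vdc
  refine ⟨16 * C, by positivity, fun A c γ hA hAc hc hγ => ?_⟩
  have hA' : (0 : ℝ) < A := by exact_mod_cast hA
  have hc' : (c : ℝ) ≤ 2 * A := by exact_mod_cast hc
  have hg : 0 < |γ| := abs_pos.2 hγ
  have hπ := Real.pi_pos
  have key : ∀ t ∈ Set.Icc (A : ℝ) c, Real.pi * |γ| / (2 * A ^ 3) ≤
      4 * Real.pi * |γ| / t ^ 3 ∧ 4 * Real.pi * |γ| / t ^ 3 ≤ 8 * (Real.pi * |γ| / (2 * A ^ 3)) := by
    intro t ⟨h1, h2⟩
    have h3 : t ≤ 2 * A := h2.trans hc'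
    have ht : 0 < t := hA'.trans_le h1
    constructor
    · rw [show Real.pi * |γ| / (2 * A ^ 3) = 4 * Real.pi * |γ| / (2 * A) ^ 3 by field_simp; ring]
      gcongr
    · rw [show 8 * (Real.pi * |γ| / (2 * A ^ 3)) = 4 * Real.pi * |γ| / A ^ 3 by field_simp; ring]
      gcongr
  have h := H (fun t => 2 * Real.pi * (γ / t)) (fun t => -(2 * Real.pi * γ) / t ^ 2)
    (fun t => 4 * Real.pi * γ / t ^ 3) A c (Real.pi * |γ| / (2 * A ^ 3)) 8 hAc
    (by positivity) (by norm_num) (fun t ht => ?_) (fun t ht => ?_) ?_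
  · refine h.trans ?_
    have h1 : (A : ℝ) * √(Real.pi * |γ| / (2 * A ^ 3)) ≤ 2 * √(|γ| / A) := by
      refine abs_le_of_sq_le_sq' ?_ (by positivity) |>.2
      rw [mul_pow, mul_pow, Real.sq_sqrt (by positivity), Real.sq_sqrt (by positivity),
        show (A : ℝ) ^ 2 * (Real.pi * |γ| / (2 * A ^ 3)) = Real.pi / 2 * (|γ| / A) by field_simp]
      gcongr
      linarith [Real.pi_le_four]
    have h2 : 1 / √(Real.pi * |γ| / (2 * A ^ 3)) ≤ √((A : ℝ) ^ 3 / |γ|) := by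
      rw [one_div, ← Real.sqrt_inv, inv_div,
        show 2 * (A : ℝ) ^ 3 / (Real.pi * |γ|) = 2 / Real.pi * (A ^ 3 / |γ|) by field_simp]
      refine Real.sqrt_le_sqrt (mul_le_of_le_one_left (by positivity) ?_)
      exact (div_le_one hπ).2 Real.two_le_pi
    have h3 := Real.sqrt_nonneg ((A : ℝ) ^ 3 / |γ|)
    have h4 : ((c : ℝ) - A) * √(Real.pi * |γ| / (2 * A ^ 3)) ≤
        A * √(Real.pi * |γ| / (2 * A ^ 3)) :=
      mul_le_mul_of_nonneg_right (by linarith) (Real.sqrt_nonneg _)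
    rw [mul_comm 16, mul_assoc C]
    refine mul_le_mul_of_nonneg_left ?_ hC.le
    rw [mul_assoc 8]
    linarith
  · have ht0 : t ≠ 0 := (hA'.trans_le ht.1).ne'
    refine (((hasDerivAt_inv ht0).const_mul γ).const_mul (2 * Real.pi)).congr_deriv ?_
    field_simp
  · have ht0 : t ≠ 0 := (hA'.trans_le ht.1).ne'
    refine ((hasDerivAt_const t (-(2 * Real.pi * γ))).div (hasDerivAt_pow 2 t)
      (pow_ne_zero 2 ht0)).congr_deriv ?_
    field_simp
    push_cast
    ring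
  · rcases le_total 0 γ with h | h
    · left
      intro t ht
      simpa only [abs_of_nonneg h] using key t ht
    · right
      intro t ht
      simpa only [abs_of_nonpos h, mul_neg, neg_div] using key t ht

/-- `abel` with the weight `box_n ω A a = ω a * (A / a)` (bounded by `1`, increments at most
`(L + 1) / A`) and `vda2`. -/
theorem vda3 : ∃ C : ℝ, 0 < C ∧ ∀ (ω : ℕ → ℝ) (L : ℝ) (A : ℕ) (γ : ℝ), 0 < A → 0 ≤ L → γ ≠ 0 →
    (∀ a, |ω a| ≤ 1) → (∀ a : ℕ, 0 < a → |ω (a + 1) - ω a| ≤ L / a) →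
    ‖∑ a ∈ Ico A (2 * A), ((box_n ω A a : ℝ) : ℂ) * ee (γ / a)‖ ≤
      C * (1 + L) * (√(|γ| / A) + √((A : ℝ) ^ 3 / |γ|)) := by
  obtain ⟨C, hC, H⟩ := vda2
  refine ⟨2 * C, by positivity, fun ω L A γ hA hL hγ h0 h1 => ?_⟩
  have hA' : (0 : ℝ) < A := by exact_mod_cast hA
  have h := abel (ω := fun a => ((box_n ω A a : ℝ) : ℂ)) (z := fun a => ee (γ / a)) (a := A)
    (b := 2 * A) (ω₀ := 1) (ω₁ := (L + 1) / A) (by omega)
    (fun c hc hc' => H A c γ hA hc hc' hγ)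
    (fun n _ _ => by rw [Complex.norm_real, Real.norm_eq_abs]; exact box_n_le h0 A n)
    (fun n hn _ => ?_)
  · refine h.trans ?_
    have e : 1 + (((2 * A : ℕ) : ℝ) - A) * ((L + 1) / A) = L + 2 := by
      push_cast
      field_simp
      ring
    rw [e]
    have h2 : 0 ≤ C * (√(|γ| / A) + √((A : ℝ) ^ 3 / |γ|)) := by positivity
    nlinarith [mul_nonneg hL h2]
  · rw [← Complex.ofReal_sub, Complex.norm_real, Real.norm_eq_abs, box_n, box_n,
      if_pos hn, if_pos (by omega : A ≤ n + 1)]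
    have hn' : (A : ℝ) ≤ n := by exact_mod_cast hn
    have hn0 : (0 : ℝ) < n := hA'.trans_le hn'
    have e : ω (n + 1) * ((A : ℝ) / ((n + 1 : ℕ) : ℝ)) - ω n * (A / n) =
        (ω (n + 1) - ω n) * (A / (n + 1)) - ω n * (A / n * (1 / (n + 1))) := by
      push_cast
      field_simp
      ring
    have a1 : (A : ℝ) / (n + 1) ≤ 1 := (div_le_one (by linarith)).2 (by linarith)
    have a2 : (A : ℝ) / n ≤ 1 := (div_le_one hn0).2 hn'
    have a3 : 1 / ((n : ℝ) + 1) ≤ 1 / A := one_div_le_one_div_of_le hA' (by linarith)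
    have a4 : L / n ≤ L / A := div_le_div_of_nonneg_left hL hA' hn'
    have b1 : |(ω (n + 1) - ω n) * (A / (n + 1))| ≤ L / A := by
      rw [abs_mul, abs_of_nonneg (show (0 : ℝ) ≤ A / (n + 1) by positivity)]
      exact (mul_le_of_le_one_right (abs_nonneg _) a1).trans
        ((h1 n (hA.trans_le hn)).trans a4)
    have b2 : |ω n * (A / n * (1 / (n + 1)))| ≤ 1 / A := by
      rw [abs_mul, abs_of_nonneg (show (0 : ℝ) ≤ A / n * (1 / (n + 1)) by positivity)]
      exact (mul_le_of_le_one_left (by positivity) (h0 n)).trans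
        ((mul_le_of_le_one_left (by positivity) a2).trans a3)
    rw [e, add_div]
    exact (abs_sub _ _).trans (add_le_add b1 b2)

theorem one_SS (α : ℕ → ℝ) (A b H : ℕ) (hb : 0 < b) (z : ℝ) :
    SS α (box_n (fun c => if c = b then 1 else 0) b) A b H z =
      ∑ h ∈ Icc 1 H, ∑ a ∈ Ico A (2 * A), ((α a : ℝ) : ℂ) * ee (h * z / b / a) := by
  have hb' : (b : ℝ) ≠ 0 := by exact_mod_cast hb.ne'
  unfold SS
  rw [sum_comm]
  refine sum_congr rfl fun h _ => sum_congr rfl fun a _ => ?_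
  rw [sum_eq_single b]
  · rw [box_n, if_pos le_rfl, if_pos rfl, div_self hb', mul_one, mul_one, div_div, mul_comm (b : ℝ)]
  · intro c _ hc
    simp [box_n, hc]
  · intro hc
    exact absurd (mem_Ico.2 ⟨le_rfl, by omega⟩) hc

theorem one_single (α : ℕ → ℝ) (F : ℕ → ℕ → ℝ) (A b : ℕ) (hb : 0 < b) :
    ∑ a ∈ Ico A (2 * A), ∑ c ∈ Ico b (2 * b), α a * (if c = b then (1 : ℝ) else 0) * F a c =
      ∑ a ∈ Ico A (2 * A), α a * F a b := by
  refine sum_congr rfl fun a _ => ?_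
  rw [sum_eq_single b]
  · rw [if_pos rfl, mul_one]
  · intro c _ hc
    rw [if_neg hc, mul_zero, zero_mul]
  · intro hc
    exact absurd (mem_Ico.2 ⟨le_rfl, by omega⟩) hc

/-- As `box`: `H = ⌊4 A b T / √x⌋₊`, `Bump.trunc` for the error, `box_main` with `B = b` and `β` the
indicator of `{b}`; `SS (box_n ω A) (box_n β b) A b H z` is the sum over `h ∈ Icc 1 H` of the sums in
`vda3` with `γ = h z / b`, `x ≤ z ≤ 2 x`; use `h ≤ H` in the first and `1 ≤ h` in the second root, and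
`√x / (A b) * H ≤ 4 T`; `∫ w ≤ 1` is not needed, put `∫ w` into `C`. -/
theorem one_box {w : ℝ → ℝ} (hw : Bump w) (k : ℕ) : ∃ C : ℝ, 0 < C ∧
    ∀ (ω : ℕ → ℝ) (L : ℝ) (A b : ℕ) (x T : ℝ), 0 < A → 0 < b → 1 ≤ x → 1 ≤ T → 0 ≤ L →
      (∀ a, |ω a| ≤ 1) → (∀ a : ℕ, 0 < a → |ω (a + 1) - ω a| ≤ L / a) →
      |∑ a ∈ Ico A (2 * A), ω a * rr w x (a * b)| ≤ C * (1 + L) *
        (T * √(T * √x) + T * √(((A : ℝ) * b) ^ 3 / x) / b + ((A : ℝ) * b) ^ 2 / √x / T ^ k) := by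
  obtain ⟨C1, hC1, h1⟩ := hw.trunc k
  obtain ⟨C2, hC2, h2⟩ := vda3
  have hW := hw.pos
  refine ⟨24 * C2 * (∫ t, w t) + 2 * C1, by positivity, ?_⟩
  intro ω L A b x T hA hb hx hT hL hω hω'
  have hA' : (0 : ℝ) < A := by exact_mod_cast hA
  have hb' : (0 : ℝ) < b := by exact_mod_cast hb
  have hb1 : (1 : ℝ) ≤ b := by exact_mod_cast hb
  have hy : 1 ≤ √x := Real.one_le_sqrt.2 hx
  have hyy : √x ^ 2 = x := Real.sq_sqrt (by linarith)
  have hyx : √x ≤ x := by nlinarith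
  have hT0 : 0 < T := by linarith
  have hx0 : 0 < x := by linarith
  set H : ℕ := ⌊4 * A * b * T / √x⌋₊ with hHdef
  have hH : (H : ℝ) ≤ 4 * A * b * T / √x := Nat.floor_le (by positivity)
  have hH2 : (H : ℝ) * √x ≤ 4 * A * b * T := (le_div_iff₀ (by linarith)).1 hH
  have hH' : 4 * A * b * T ≤ √x * (H + 1) := by
    have := (Nat.lt_floor_add_one (4 * A * b * T / √x)).le
    rw [div_le_iff₀ (by linarith)] at this
    linarith
  have hK : ∀ t : ℝ, 0 < t → t < 1 →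
      ‖SS (box_n ω A) (box_n (fun c => if c = b then 1 else 0) b) A b H (x + t * √x)‖ ≤
        H * (C2 * (1 + L) * (3 * √(T * √x) + √(((A : ℝ) * b) ^ 3 / x) / b)) := by
    intro t ht0 ht1
    have hz1 : x ≤ x + t * √x := by nlinarith
    have hz2 : x + t * √x ≤ 2 * x := by nlinarith
    generalize x + t * √x = z at hz1 hz2
    have hz0 : 0 < z := hx0.trans_le hz1
    rw [one_SS _ _ _ _ hb]
    refine (norm_sum_le _ _).trans ((sum_le_card_nsmul _ _
      (C2 * (1 + L) * (3 * √(T * √x) + √(((A : ℝ) * b) ^ 3 / x) / b)) fun h hh => ?_).trans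
      (le_of_eq (by rw [Nat.card_Icc, Nat.add_sub_cancel, nsmul_eq_mul])))
    obtain ⟨hh1, hh2⟩ := mem_Icc.1 hh
    have hh3 : (1 : ℝ) ≤ h := by exact_mod_cast hh1
    have hh4 : (h : ℝ) ≤ H := by exact_mod_cast hh2
    have hγ : 0 < h * z / b := by positivity
    refine (h2 ω L A (h * z / b) hA hL hγ.ne' hω hω').trans ?_
    rw [abs_of_pos hγ]
    have r1 : √(h * z / b / A) ≤ 3 * √(T * √x) := by
      refine abs_le_of_sq_le_sq' ?_ (by positivity) |>.2
      rw [mul_pow, Real.sq_sqrt (by positivity), Real.sq_sqrt (by positivity), div_div,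
        div_le_iff₀ (by positivity)]
      have q1 : h * z ≤ H * (2 * x) := by gcongr
      have q2 : (H : ℝ) * √x * √x ≤ 4 * A * b * T * √x := by gcongr
      have q3 : 0 ≤ A * b * T * √x := by positivity
      have q4 : (H : ℝ) * √x * √x = H * x := by rw [mul_assoc, ← sq, hyy]
      nlinarith
    have r2 : √((A : ℝ) ^ 3 / (h * z / b)) ≤ √(((A : ℝ) * b) ^ 3 / x) / b := by
      refine abs_le_of_sq_le_sq' ?_ (by positivity) |>.2
      rw [div_pow, Real.sq_sqrt (by positivity), Real.sq_sqrt (by positivity),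
        show ((A : ℝ) * b) ^ 3 / x / b ^ 2 = A ^ 3 / (1 * x / b) by field_simp]
      gcongr
    gcongr
  have hM := box_main hw ω (fun c => if c = b then 1 else 0) A b H x (√x) _ hA hb
    (by linarith) hK
  rw [one_single ω (fun a c => √x / ((a * c : ℕ) : ℝ) *
      ∑ h ∈ Icc 1 H, ∫ t, w t * (2 * Real.cos (2 * Real.pi *
        ((h : ℝ) * (x + t * √x) / ((a * c : ℕ) : ℝ))))) A b hb] at hM
  have hE : |∑ a ∈ Ico A (2 * A), ω a * (rr w x (a * b) -
      √x / ((a * b : ℕ) : ℝ) * ∑ h ∈ Icc 1 H, ∫ t, w t * (2 * Real.cos (2 * Real.pi *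
        ((h : ℝ) * (x + t * √x) / ((a * b : ℕ) : ℝ)))))| ≤
      2 * C1 * ((A * b) ^ 2 / √x / T ^ k) := by
    have h3 : ∀ a ∈ Ico A (2 * A), |ω a * (rr w x (a * b) -
        √x / ((a * b : ℕ) : ℝ) * ∑ h ∈ Icc 1 H, ∫ t, w t * (2 * Real.cos (2 * Real.pi *
          ((h : ℝ) * (x + t * √x) / ((a * b : ℕ) : ℝ)))))| ≤
        C1 * (2 * A * b * b / √x) * (1 / T) ^ k := by
      intro a ha
      obtain ⟨ha1, ha2⟩ := mem_Ico.1 ha
      have hd : ((a * b : ℕ) : ℝ) ≤ 2 * A * b := by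
        have ha3 : (a : ℝ) ≤ 2 * A := by exact_mod_cast ha2.le
        push_cast
        gcongr
      have hd' : ((a * b : ℕ) : ℝ) ≤ 2 * A * b * b :=
        hd.trans (le_mul_of_one_le_right (by positivity) hb1)
      have h4 := h1 x hx (a * b) (Nat.mul_pos (hA.trans_le ha1) hb) H
      have h5 : ((a * b : ℕ) : ℝ) / (√x * (H + 1)) ≤ 1 / T := by
        rw [div_le_div_iff₀ (by positivity) hT0]
        have : 0 ≤ A * b * T := by positivity
        nlinarith
      rw [abs_mul]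
      refine (mul_le_of_le_one_left (abs_nonneg _) (hω a)).trans (h4.trans ?_)
      gcongr
    refine (abs_sum_le_sum_abs _ _).trans ((sum_le_sum h3).trans (le_of_eq ?_))
    simp only [sum_const, Nat.card_Ico, nsmul_eq_mul, show 2 * A - A = A by omega]
    rw [one_div, inv_pow]
    field_simp
  have hsplit : ∑ a ∈ Ico A (2 * A), ω a * rr w x (a * b) =
      ∑ a ∈ Ico A (2 * A), ω a * (√x / ((a * b : ℕ) : ℝ) *
        ∑ h ∈ Icc 1 H, ∫ t, w t * (2 * Real.cos (2 * Real.pi *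
          ((h : ℝ) * (x + t * √x) / ((a * b : ℕ) : ℝ))))) +
      ∑ a ∈ Ico A (2 * A), ω a * (rr w x (a * b) -
        √x / ((a * b : ℕ) : ℝ) * ∑ h ∈ Icc 1 H, ∫ t, w t * (2 * Real.cos (2 * Real.pi *
          ((h : ℝ) * (x + t * √x) / ((a * b : ℕ) : ℝ))))) := by
    rw [← sum_add_distrib]
    refine sum_congr rfl fun a _ => ?_
    ring
  rw [hsplit]
  refine (abs_add_le _ _).trans ((add_le_add hM hE).trans ?_)
  have p1 : 0 ≤ √(T * √x) := Real.sqrt_nonneg _
  have p2 : 0 ≤ √(((A : ℝ) * b) ^ 3 / x) / b := by positivity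
  have p3 : (0 : ℝ) ≤ (A * b) ^ 2 / √x / T ^ k := by positivity
  have p4 : √x / (A * b) * H ≤ 4 * T := by
    rw [div_mul_eq_mul_div, div_le_iff₀ (by positivity)]
    linarith
  rw [mul_div_assoc T]
  generalize √(T * √x) = u at p1 ⊢
  generalize √(((A : ℝ) * b) ^ 3 / x) / b = v at p2 ⊢
  generalize ((A : ℝ) * b) ^ 2 / √x / T ^ k = e at p3 ⊢
  generalize ∫ t, w t = W at hW ⊢
  have p5 : √x / (A * b) * (2 * (H * (C2 * (1 + L) * (3 * u + v)))) * W ≤
      24 * C2 * W * (1 + L) * (T * u + T * v) := by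
    calc √x / (A * b) * (2 * (H * (C2 * (1 + L) * (3 * u + v)))) * W
        = √x / (A * b) * H * (2 * C2 * W * (1 + L) * (3 * u + v)) := by ring
      _ ≤ 4 * T * (2 * C2 * W * (1 + L) * (3 * u + 3 * v)) := by
          gcongr
          linarith
      _ = 24 * C2 * W * (1 + L) * (T * u + T * v) := by ring
  have p6 : 0 ≤ 24 * C2 * W * (1 + L) * e := by positivity
  have p7 : 0 ≤ 2 * C1 * (1 + L) * (T * u + T * v) := by positivity
  have p8 : 0 ≤ 2 * C1 * L * e := by positivity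
  nlinarith

end Pool.Agent.Lib.MP_7d48f8_nt
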