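import Pool.Agent.Lib.MP_7d48f8_nt.B.Bil
import Pool.Agent.Lib.MP_7d48f8_nt.V.One

/-! Type I sums. -/

noncomputable section

namespace Pool.Agent.Lib.MP_7d48f8_nt

open Finset MeasureTheory Filter Topology

theorem typ1_num {y u b : ℝ} (hy : 1 ≤ y) (hu0 : 0 ≤ u) (hu : u ≤ y ^ 360) (hb0 : 0 < b)
    (hb : b ≤ y ^ 100) : y ^ 6 * √(y ^ 6 * √(y ^ 600)) + y ^ 6 * √(u ^ 3 / y ^ 600) / b +
      u ^ 2 / √(y ^ 600) / (y ^ 6) ^ 100 ≤ 3 * (y ^ 259 / b) := by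
  have hy0 : 0 < y := one_pos.trans_le hy
  have e1 : √(y ^ 600) = y ^ 300 := by
    rw [show y ^ 600 = (y ^ 300) ^ 2 by ring, Real.sqrt_sq (by positivity)]
  have e2 : √(y ^ 6 * y ^ 300) = y ^ 153 := by
    rw [show y ^ 6 * y ^ 300 = (y ^ 153) ^ 2 by ring, Real.sqrt_sq (by positivity)]
  have h1 : y ^ 6 * y ^ 153 ≤ y ^ 259 / b := by
    rw [le_div_iff₀ hb0]
    exact (mul_le_mul_of_nonneg_left hb (by positivity)).trans_eq (by ring)
  have h2 : √(u ^ 3 / y ^ 600) ≤ y ^ 253 := by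
    rw [Real.sqrt_le_left (by positivity), div_le_iff₀ (by positivity)]
    calc u ^ 3 ≤ (y ^ 360) ^ 3 := by gcongr
      _ = y ^ 1080 := by ring
      _ ≤ y ^ 1106 := pow_le_pow_right₀ hy (by norm_num)
      _ = _ := by ring
  have h3 : y ^ 6 * √(u ^ 3 / y ^ 600) / b ≤ y ^ 259 / b :=
    div_le_div_of_nonneg_right
      ((mul_le_mul_of_nonneg_left h2 (by positivity)).trans_eq (by ring)) hb0.le
  have h4 : u ^ 2 / y ^ 300 / (y ^ 6) ^ 100 ≤ y ^ 6 * y ^ 153 := by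
    rw [div_div, div_le_iff₀ (by positivity)]
    calc u ^ 2 ≤ (y ^ 360) ^ 2 := by gcongr
      _ = y ^ 720 := by ring
      _ ≤ y ^ 1059 := pow_le_pow_right₀ hy (by norm_num)
      _ = _ := by ring
  rw [e1, e2]
  linarith

/-- Exchange the sums; for fixed `b` use `bil_dy` (the cut at `X` does nothing since `ω a b = 0` for
`a > X`), `one_box` with `T = x ^ (1 / 100)`, `k = 100` for the blocks with `2 ^ i * b ≤ x ^ (3 / 5)`; the
other blocks vanish.  At most `x ^ (1 / 6)` values of `b` contribute, `∑ 1 / b ≤ 1 + log X`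
(`harmonic_le_one_add_log`), `bil_cnt` for the number of blocks, `Real.log_le_rpow_div`. -/
theorem typ1 {w : ℝ → ℝ} (hw : Bump w) : ∃ C : ℝ, 0 < C ∧
    ∀ (ω : ℕ → ℕ → ℝ) (β : ℕ → ℝ) (L x : ℝ) (X : ℕ), 1 ≤ x → 0 ≤ L → x ^ (3 / 5 : ℝ) ≤ X →
      (X : ℝ) ≤ 2 * x → (∀ a b, |ω a b| ≤ 1) →
      (∀ a b : ℕ, 0 < a → |ω (a + 1) b - ω a b| ≤ L / a) →
      (∀ a b : ℕ, 0 < b → ω a b ≠ 0 → (a : ℝ) * b ≤ x ^ (3 / 5 : ℝ)) → (∀ b, |β b| ≤ 1) →
      (∀ b : ℕ, β b ≠ 0 → (b : ℝ) ≤ x ^ (1 / 6 : ℝ)) →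
      |∑ a ∈ Icc 1 X, ∑ b ∈ Icc 1 X, β b * ω a b * rr w x (a * b)| ≤
        C * (1 + L) * x ^ (9 / 20 : ℝ) := by
  obtain ⟨C, hC, h⟩ := one_box hw 100
  refine ⟨6 * 602 ^ 2 * C, by positivity, fun ω β L x X hx hL hX1 hX2 hω hd hs hβ hb => ?_⟩
  have hx0 : 0 < x := one_pos.trans_le hx
  obtain ⟨y, hy, hp⟩ : ∃ y : ℝ, 1 ≤ y ∧ ∀ n : ℕ, y ^ n = x ^ (n / 600 : ℝ) :=
    ⟨x ^ (1 / 600 : ℝ), Real.one_le_rpow hx (by norm_num), fun n => by
      rw [← Real.rpow_mul_natCast hx0.le]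
      congr 1
      ring⟩
  rw [show x ^ (3 / 5 : ℝ) = y ^ 360 by rw [hp]; norm_num] at hX1 hs
  rw [show x ^ (1 / 6 : ℝ) = y ^ 100 by rw [hp]; norm_num] at hb
  rw [show x ^ (9 / 20 : ℝ) = y ^ 270 by rw [hp]; norm_num]
  obtain rfl : x = y ^ 600 := by rw [hp]; norm_num
  have hy0 : 0 < y := one_pos.trans_le hy
  have hX : (1 : ℝ) ≤ X := (one_le_pow₀ hy).trans hX1
  have hl0 := Real.log_nonneg hX
  have hl : 1 + Real.log X ≤ 602 * y := by
    have h1 := Real.log_le_log (by positivity) hX2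
    rw [Real.log_mul two_ne_zero hx0.ne', Real.log_pow] at h1
    have h2 := Real.log_le_sub_one_of_pos hy0
    have h3 := Real.log_le_sub_one_of_pos two_pos
    push_cast at h1
    linarith
  have hbox : ∀ b : ℕ, 0 < b → (b : ℝ) ≤ y ^ 100 → ∀ i : ℕ,
      |∑ a ∈ Ico (2 ^ i) (2 * 2 ^ i), (if a ≤ X then ω a b else 0) * rr w (y ^ 600) (a * b)| ≤
        C * (1 + L) * (3 * (y ^ 259 / b)) := by
    intro b hb0 hb1 i
    have hb2 : (1 : ℝ) ≤ b := Nat.one_le_cast.2 hb0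
    have e : ∀ a, (if a ≤ X then ω a b else 0) = ω a b := fun a => by
      split_ifs with ha
      · rfl
      · by_contra hne
        exact ha (Nat.cast_le.1 (((le_mul_of_one_le_right (Nat.cast_nonneg a) hb2).trans
          (hs a b hb0 (Ne.symm hne))).trans hX1))
    simp only [e]
    by_cases hi : ((2 ^ i : ℕ) : ℝ) * b ≤ y ^ 360
    · refine (h (fun a => ω a b) L _ b _ (y ^ 6) (Nat.two_pow_pos i) hb0 hx (one_le_pow₀ hy) hL
        (fun a => hω a b) fun a => hd a b).trans ?_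
      exact mul_le_mul_of_nonneg_left (typ1_num hy (by positivity) hi (by positivity) hb1)
        (by positivity)
    · rw [sum_eq_zero, abs_zero]
      · positivity
      · intro a ha
        by_contra hne
        refine hi (le_trans ?_ (hs a b hb0 (left_ne_zero_of_mul hne)))
        exact mul_le_mul_of_nonneg_right (Nat.cast_le.2 (mem_Ico.1 ha).1) (by positivity)
  have hone : ∀ b ∈ Icc 1 X, |∑ a ∈ Icc 1 X, β b * ω a b * rr w (y ^ 600) (a * b)| ≤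
      2 * (602 * y) * (C * (1 + L) * (3 * y ^ 259)) * (b : ℝ)⁻¹ := by
    intro b hb0
    simp only [mul_assoc (β b), ← mul_sum]
    by_cases h0 : β b = 0
    · rw [h0, zero_mul, abs_zero]
      positivity
    rw [abs_mul, bil_dy X (fun a => ω a b) fun a => rr w (y ^ 600) (a * b)]
    have h1 := bil_cnt hX le_rfl
    rw [Nat.floor_natCast] at h1
    calc _ ≤ 1 * ∑ i ∈ range (Nat.log 2 X + 1), C * (1 + L) * (3 * (y ^ 259 / b)) :=
          mul_le_mul (hβ b) ((abs_sum_le_sum_abs _ _).trans (sum_le_sum fun i _ =>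
            hbox b (mem_Icc.1 hb0).1 (hb b h0) i)) (abs_nonneg _) zero_le_one
      _ = (Nat.log 2 X + 1 : ℕ) * (C * (1 + L) * (3 * (y ^ 259 / b))) := by
        rw [one_mul, sum_const, card_range, nsmul_eq_mul]
      _ ≤ 2 * (602 * y) * (C * (1 + L) * (3 * (y ^ 259 / b))) :=
        mul_le_mul_of_nonneg_right (h1.trans (mul_le_mul_of_nonneg_left hl two_pos.le))
          (mul_nonneg (mul_nonneg hC.le (add_nonneg one_pos.le hL))
            (mul_nonneg three_pos.le (div_nonneg (pow_nonneg hy0.le _) (Nat.cast_nonneg b))))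
      _ = _ := by ring
  have hh : ∑ b ∈ Icc 1 X, (b : ℝ)⁻¹ ≤ 602 * y := by
    have h1 := harmonic_le_one_add_log X
    rw [harmonic_eq_sum_Icc] at h1
    push_cast at h1
    linarith
  rw [sum_comm]
  calc _ ≤ ∑ b ∈ Icc 1 X, 2 * (602 * y) * (C * (1 + L) * (3 * y ^ 259)) * (b : ℝ)⁻¹ :=
        (abs_sum_le_sum_abs _ _).trans (sum_le_sum hone)
    _ ≤ 2 * (602 * y) * (C * (1 + L) * (3 * y ^ 259)) * (602 * y) := by
      rw [← mul_sum]
      exact mul_le_mul_of_nonneg_left hh (by positivity)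
    _ = 6 * 602 ^ 2 * C * (1 + L) * (y ^ 259 * y ^ 2) := by
      generalize y ^ 259 = z
      ring
    _ ≤ _ := by
      rw [← pow_add]
      exact mul_le_mul_of_nonneg_left (pow_le_pow_right₀ hy (by norm_num)) (by positivity)

end Pool.Agent.Lib.MP_7d48f8_nt
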