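import Pool.Agent.Lib.MP_7d48f8_nt.P.Str

/-! Type II sums with a Lipschitz weight in the size of the product. -/

noncomputable section

namespace Pool.Agent.Lib.MP_7d48f8_nt

open Finset MeasureTheory Filter Topology

/-- `bil` with `ε = 1 / 10000`, the larger range first (`str_pow`, `sum_comm`). -/
theorem bil2 {w : ℝ → ℝ} (hw : Bump w) : ∃ η C : ℝ, 0 < η ∧ 0 < C ∧ ∀ᶠ x : ℝ in atTop,
    ∀ (α β : ℕ → ℝ) (σ τ : ℝ), (∀ a, |α a| ≤ 1) → (∀ b, |β b| ≤ 1) → 0 ≤ σ → 0 ≤ τ →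
      σ ≤ 0.4998 → τ ≤ 0.4998 → σ + τ ≤ 0.5712 →
      |∑ a ∈ Icc 1 ⌊(2 * x) ^ σ⌋₊, ∑ b ∈ Icc 1 ⌊(2 * x) ^ τ⌋₊, α a * β b * rr w x (a * b)| ≤
        C * x ^ (1 / 2 - η) := by
  have hε : (0 : ℝ) < 1 / 10000 := by norm_num
  obtain ⟨η, C, hη, hC, hbil⟩ := bil hw hε
  refine ⟨η, C, hη, hC, ?_⟩
  filter_upwards [str_pow (σ := 0.4998) (τ := 1 / 2) hε (by norm_num),
    str_pow (σ := 1.9992) (τ := 2) hε (by norm_num), eventually_ge_atTop 1] with x p1 p2 hx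
  have hx2 : 1 ≤ 2 * x := by linarith
  have key : ∀ (α β : ℕ → ℝ) (σ τ : ℝ), (∀ a, |α a| ≤ 1) → (∀ b, |β b| ≤ 1) → 0 ≤ τ → τ ≤ σ →
      σ ≤ 0.4998 → σ + τ ≤ 0.5712 →
      |∑ a ∈ Icc 1 ⌊(2 * x) ^ σ⌋₊, ∑ b ∈ Icc 1 ⌊(2 * x) ^ τ⌋₊, α a * β b * rr w x (a * b)| ≤
        C * x ^ (1 / 2 - η) := by
    intro α β σ τ hα hβ h0 h1 h2 h3
    refine hbil α β hα hβ x _ _ hx (Real.one_le_rpow hx2 (h0.trans h1)) (Real.one_le_rpow hx2 h0)
      ((Real.rpow_le_rpow_of_exponent_le hx2 h2).trans p1) (le_trans ?_ p2)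
    rw [← Real.rpow_mul_natCast (by linarith), ← Real.rpow_mul_natCast (by linarith),
      ← Real.rpow_add (by linarith)]
    refine Real.rpow_le_rpow_of_exponent_le hx2 ?_
    push_cast
    linarith
  intro α β σ τ hα hβ h0 h1 h2 h3 h4
  rcases le_total τ σ with h | h
  · exact key α β σ τ hα hβ h1 h h2 h4
  · rw [sum_comm]
    simpa only [mul_comm (β _), mul_comm (G := ℕ)] using key β α τ σ hβ hα h0 h h3 (by linarith)

theorem typ2_cut {x σ : ℝ} (hx : 1 ≤ x) (hσ : σ ≤ 1) {f : ℕ → ℝ} (h : ∀ a, f a ≠ 0 → sz x a ≤ σ) :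
    ∑ a ∈ Icc 1 ⌊2 * x⌋₊, f a = ∑ a ∈ Icc 1 ⌊(2 * x) ^ σ⌋₊, f a := by
  have hx2 : 1 ≤ 2 * x := by linarith
  refine (sum_subset (Icc_subset_Icc_right (Nat.floor_mono ?_)) fun a ha hb => ?_).symm
  · simpa using Real.rpow_le_rpow_of_exponent_le hx2 hσ
  · by_contra h0
    have h1 := (mem_Icc.1 ha).1
    refine hb (mem_Icc.2 ⟨h1, Nat.le_floor ?_⟩)
    rw [Real.le_rpow_iff_log_le (by exact_mod_cast h1) (by linarith), ← div_le_iff₀ (exc_log hx)]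
    exact h a h0

/-- The same for supports given by sizes (`sz x a ≤ σ` iff `a ≤ (2 x) ^ σ`; if `σ` or `τ` is negative
the sum is zero). -/
theorem bil3 {w : ℝ → ℝ} (hw : Bump w) : ∃ η C : ℝ, 0 < η ∧ 0 < C ∧ ∀ᶠ x : ℝ in atTop,
    ∀ (α β : ℕ → ℝ) (σ τ : ℝ), (∀ a, |α a| ≤ 1) → (∀ b, |β b| ≤ 1) →
      σ ≤ 0.4998 → τ ≤ 0.4998 → σ + τ ≤ 0.5712 →
      (∀ a, α a ≠ 0 → sz x a ≤ σ) → (∀ b, β b ≠ 0 → sz x b ≤ τ) →
      |∑ a ∈ Icc 1 ⌊2 * x⌋₊, ∑ b ∈ Icc 1 ⌊2 * x⌋₊, α a * β b * rr w x (a * b)| ≤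
        C * x ^ (1 / 2 - η) := by
  obtain ⟨η, C, hη, hC, h⟩ := bil2 hw
  refine ⟨η, C, hη, hC, ?_⟩
  filter_upwards [h, eventually_ge_atTop 1] with x h hx α β σ τ hα hβ h1 h2 h3 h4 h5
  have h0 : 0 ≤ C * x ^ (1 / 2 - η) := by positivity
  rcases lt_or_ge σ 0 with hσ | hσ
  · have : ∀ a, α a = 0 := fun a => by_contra fun h' => by linarith [h4 a h', exc_sz hx a]
    simpa [this] using h0
  rcases lt_or_ge τ 0 with hτ | hτ
  · have : ∀ a, β a = 0 := fun a => by_contra fun h' => by linarith [h5 a h', exc_sz hx a]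
    simpa [this] using h0
  refine le_of_eq_of_le (congrArg _ ?_) (h α β σ τ hα hβ hσ hτ h1 h2 h3)
  rw [typ2_cut hx (σ := σ) (by linarith) fun a ha => h4 a fun h' => ha (by simp [h'])]
  exact sum_congr rfl fun a _ => typ2_cut hx (by linarith) fun b hb => h5 b fun h' => hb (by simp [h'])

theorem abs_rr_le {w : ℝ → ℝ} (hw : Bump w) (x : ℝ) (d : ℕ) :
    |rr w x d| ≤ rr w x d + 2 * (√x * (∫ t, w t) / d) := by
  have h1 : 0 ≤ NN w x d := sum_nonneg fun _ _ => hw.nonneg _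
  have h2 : 0 ≤ √x * (∫ t, w t) / d := by have := hw.pos; positivity
  rw [rr, abs_le]
  constructor <;> linarith

theorem typ2_pt {g : ℝ → ℝ} {K : ℝ} (hK : ∀ s t, |g s - g t| ≤ K * |s - t|)
    (hs : ∀ t, g t ≠ 0 → t ≤ 0.5711) {u v c δ p q r m : ℝ} (hp : |p| ≤ 1) (hq : |q| ≤ 1)
    (h1 : c ≤ v) (h2 : v ≤ c + δ) (hr : |r| ≤ r + m) (hm : 0 ≤ m) :
    |p * q * g (u + v) * r - p * g (u + c) * q * r| ≤
      K * δ * ((if u ≤ 0.5711 - c then |p| else 0) * |q| * r + m) := by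
  have hK0 : 0 ≤ K := by simpa using (abs_nonneg _).trans (hK 1 0)
  have hδ : 0 ≤ δ := by linarith
  split_ifs with h
  · have e1 : |g (u + v) - g (u + c)| ≤ K * δ := (hK _ _).trans
      (mul_le_mul_of_nonneg_left (abs_le.2 ⟨by linarith, by linarith⟩) hK0)
    have e2 : |p| * |q| * m ≤ 1 * 1 * m := by gcongr
    calc _ = |p| * |q| * |g (u + v) - g (u + c)| * |r| := by
          rw [← abs_mul, ← abs_mul, ← abs_mul]
          congr 1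
          ring
      _ ≤ |p| * |q| * (K * δ) * (r + m) := by gcongr
      _ = K * δ * (|p| * |q| * r + |p| * |q| * m) := by ring
      _ ≤ _ := by gcongr; linarith
  · have e1 : g (u + v) = 0 := by_contra fun h' => h (by linarith [hs _ h'])
    have e2 : g (u + c) = 0 := by_contra fun h' => h (by linarith [hs _ h'])
    rw [e1, e2]
    simpa using mul_nonneg (mul_nonneg hK0 hδ) hm

theorem typ2_cls {x J : ℝ} (hx : 1 ≤ x) (hJ : 0 < J) (b : ℕ) :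
    ⌊J * sz x b⌋₊ / J ≤ sz x b ∧ sz x b ≤ ⌊J * sz x b⌋₊ / J + 1 / J := by
  rw [← add_div, div_le_iff₀' hJ, le_div_iff₀' hJ]
  exact ⟨Nat.floor_le (mul_nonneg hJ.le (exc_sz hx b)), (Nat.lt_floor_add_one _).le⟩

section

variable {w : ℝ → ℝ} {x E : ℝ} {J : ℕ} (hx : 1 ≤ x) (hJ : (10000 : ℝ) ≤ J)
  (h : ∀ (α β : ℕ → ℝ) (σ τ : ℝ), (∀ a, |α a| ≤ 1) → (∀ b, |β b| ≤ 1) →
    σ ≤ 0.4998 → τ ≤ 0.4998 → σ + τ ≤ 0.5712 →
    (∀ a, α a ≠ 0 → sz x a ≤ σ) → (∀ b, β b ≠ 0 → sz x b ≤ τ) →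
    |∑ a ∈ Icc 1 ⌊2 * x⌋₊, ∑ b ∈ Icc 1 ⌊2 * x⌋₊, α a * β b * rr w x (a * b)| ≤ E)

include hx hJ h

theorem typ2_fib {A : ℕ → ℕ → ℝ} {β : ℕ → ℝ} (hA : ∀ j a, |A j a| ≤ 1) (hβ : ∀ b, |β b| ≤ 1)
    (h1 : ∀ j a, A j a ≠ 0 → sz x a ≤ 0.4998 ∧ sz x a ≤ 0.5711 - j / J)
    (h2 : ∀ b, β b ≠ 0 → sz x b ≤ 0.4998) :
    |∑ a ∈ Icc 1 ⌊2 * x⌋₊, ∑ b ∈ Icc 1 ⌊2 * x⌋₊, A ⌊J * sz x b⌋₊ a * β b * rr w x (a * b)| ≤
      (J + 1) * E := by
  have hJ0 : (0 : ℝ) < J := by linarith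
  have hJ1 : (1 : ℝ) / J ≤ 1 / 10000 := one_div_le_one_div_of_le (by norm_num) hJ
  have e : ∀ a b, A ⌊J * sz x b⌋₊ a * β b * rr w x (a * b) = ∑ j ∈ range (J + 1),
      A j a * (if ⌊J * sz x b⌋₊ = j then β b else 0) * rr w x (a * b) := by
    intro a b
    by_cases hb : β b = 0
    · simp [hb]
    have : ⌊J * sz x b⌋₊ ∈ range (J + 1) :=
      mem_range_succ_iff.2 (Nat.floor_le_of_le (by nlinarith [h2 b hb]))
    simp only [mul_ite, ite_mul, mul_zero, zero_mul, sum_ite_eq, if_pos this]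
  simp only [e]
  rw [sum_congr rfl fun a _ => sum_comm, sum_comm]
  refine (abs_sum_le_sum_abs _ _).trans ((sum_le_card_nsmul _ _ E fun j _ => ?_).trans_eq (by simp))
  refine h _ _ (min 0.4998 (0.5711 - j / J)) (min 0.4998 (j / J + 1 / J)) (hA j)
    (fun b => by split_ifs <;> simp [hβ]) (min_le_left _ _) (min_le_left _ _)
    (by linarith [min_le_right 0.4998 (0.5711 - (j : ℝ) / J), min_le_right 0.4998 ((j : ℝ) / J + 1 / J)])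
    (fun a ha => le_min (h1 j a ha).1 (h1 j a ha).2) fun b hb => ?_
  split_ifs at hb with hj
  · exact le_min (h2 b hb) (hj ▸ (typ2_cls hx hJ0 b).2)
  · exact absurd rfl hb

end

theorem typ2_aux {w : ℝ → ℝ} (hw : Bump w) {g : ℝ → ℝ} {K : ℝ}
    (hK : ∀ s t, |g s - g t| ≤ K * |s - t|) (h1 : ∀ t, |g t| ≤ 1) (hs : ∀ t, g t ≠ 0 → t ≤ 0.5711)
    {x E : ℝ} {J : ℕ} (hx : 1 ≤ x) (hJ : (10000 : ℝ) ≤ J)
    (h : ∀ (α β : ℕ → ℝ) (σ τ : ℝ), (∀ a, |α a| ≤ 1) → (∀ b, |β b| ≤ 1) →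
      σ ≤ 0.4998 → τ ≤ 0.4998 → σ + τ ≤ 0.5712 →
      (∀ a, α a ≠ 0 → sz x a ≤ σ) → (∀ b, β b ≠ 0 → sz x b ≤ τ) →
      |∑ a ∈ Icc 1 ⌊2 * x⌋₊, ∑ b ∈ Icc 1 ⌊2 * x⌋₊, α a * β b * rr w x (a * b)| ≤ E)
    {α β : ℕ → ℝ} (hα : ∀ a, |α a| ≤ 1) (hβ : ∀ b, |β b| ≤ 1)
    (h2 : ∀ a, α a ≠ 0 → sz x a ≤ 0.4998) (h3 : ∀ b, β b ≠ 0 → sz x b ≤ 0.4998) :
    |∑ a ∈ Icc 1 ⌊2 * x⌋₊, ∑ b ∈ Icc 1 ⌊2 * x⌋₊,
      α a * β b * g (sz x a + sz x b) * rr w x (a * b)| ≤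
      (1 + K) * ((J + 1) * E) + 2 * K * (∫ t, w t) * (√x * (1 + Real.log (2 * x)) ^ 2 / J) := by
  have hK0 : 0 ≤ K := by simpa using (abs_nonneg _).trans (hK 1 0)
  have hm := hw.pos
  have hJ0 : (0 : ℝ) < J := by linarith
  have m1 := typ2_fib hx hJ h (A := fun j a => α a * g (sz x a + j / J))
    (fun j a => by rw [abs_mul]; exact mul_le_one₀ (hα a) (abs_nonneg _) (h1 _)) hβ
    (fun j a ha => ⟨h2 a (left_ne_zero_of_mul ha), by linarith [hs _ (right_ne_zero_of_mul ha)]⟩) h3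
  have m2 := typ2_fib hx hJ h (A := fun j a => if sz x a ≤ 0.5711 - j / J then |α a| else 0)
    (β := fun b => |β b|) (fun j a => by split_ifs <;> simp [hα]) (fun b => by simp [hβ])
    (fun j a ha => by
      split_ifs at ha with hj
      · exact ⟨h2 a (abs_ne_zero.1 ha), hj⟩
      · exact absurd rfl ha) fun b hb => h3 b (abs_ne_zero.1 hb)
  have m3 : ∑ a ∈ Icc 1 ⌊2 * x⌋₊, (a : ℝ)⁻¹ ≤ 1 + Real.log (2 * x) := by
    simpa [harmonic_eq_sum_Icc] using harmonic_floor_le_one_add_log (2 * x) (by linarith)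
  have m4 : ∑ a ∈ Icc 1 ⌊2 * x⌋₊, ∑ b ∈ Icc 1 ⌊2 * x⌋₊, 2 * (√x * (∫ t, w t) / ((a * b : ℕ) : ℝ)) ≤
      2 * (∫ t, w t) * (√x * (1 + Real.log (2 * x)) ^ 2) :=
    calc _ = 2 * (∫ t, w t) * (√x * (∑ a ∈ Icc 1 ⌊2 * x⌋₊, (a : ℝ)⁻¹) ^ 2) := by
          rw [sq, sum_mul_sum]
          simp only [mul_sum]
          refine sum_congr rfl fun a _ => sum_congr rfl fun b _ => ?_
          push_cast
          ring
      _ ≤ _ := by gcongr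
  have hE := (abs_nonneg _).trans m1
  refine (abs_sub_abs_le_abs_sub _ _ |> sub_le_iff_le_add.1).trans
    ((add_le_add (le_trans ?_ (mul_le_mul_of_nonneg_left (add_le_add (le_abs_self _ |>.trans m2) m4)
      (show 0 ≤ K * (1 / J) by positivity))) m1).trans ?_)
  · rw [← sum_sub_distrib, ← sum_add_distrib, mul_sum]
    refine (abs_sum_le_sum_abs _ _).trans (sum_le_sum fun a _ => ?_)
    rw [← sum_sub_distrib, ← sum_add_distrib, mul_sum]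
    refine (abs_sum_le_sum_abs _ _).trans (sum_le_sum fun b _ => ?_)
    exact typ2_pt hK hs (hα a) (hβ b) (typ2_cls hx hJ0 b).1 (typ2_cls hx hJ0 b).2 (abs_rr_le hw x _)
      (by positivity)
  · have : K * (1 / J) * ((J + 1) * E) ≤ K * 1 * ((J + 1) * E) := by
      gcongr
      exact (div_le_one hJ0).2 (by linarith)
    refine le_of_eq_of_le (b := K * (1 / J) * ((J + 1) * E) + (J + 1) * E +
      2 * K * (∫ t, w t) * (√x * (1 + Real.log (2 * x)) ^ 2 / J)) (by ring) (by linarith)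

/-- `J = ⌈x ^ (η / 2)⌉₊ ≥ 10000`; split `b` by `j = ⌊J * sz x b⌋₊ ∈ range (J + 1)`
(`sum_fiberwise_of_maps_to`) and replace `g (sz a + sz b)` by `g (sz a + j / J)`.  If
`j / J > 0.4997` or `(j + 1) / J < 0.0714` everything vanishes.  Otherwise `bil3` with
`σ = 0.5711 - j / J`, `τ = (j + 1) / J` bounds the main part.  The error is at most `K / J` times the sum of
`|rr|` over `sz a ≤ σ` and `b` in the class; `abs_rr_le`, `bil3` for the indicators, and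
`∑ 1 / (a b) ≤ (1 + log (2 x)) ^ 2` after summing over `j`. -/
theorem typ2 {w : ℝ → ℝ} (hw : Bump w) {g : ℝ → ℝ} {K : ℝ} (hK : ∀ s t, |g s - g t| ≤ K * |s - t|)
    (h1 : ∀ t, |g t| ≤ 1) (hs : ∀ t, g t ≠ 0 → t ≤ 0.5711) :
    ∃ η C : ℝ, 0 < η ∧ 0 < C ∧ ∀ᶠ x : ℝ in atTop, ∀ α β : ℕ → ℝ, (∀ a, |α a| ≤ 1) →
      (∀ b, |β b| ≤ 1) → (∀ a, α a ≠ 0 → 0.0714 ≤ sz x a) → (∀ b, β b ≠ 0 → 0.0714 ≤ sz x b) →
      |∑ a ∈ Icc 1 ⌊2 * x⌋₊, ∑ b ∈ Icc 1 ⌊2 * x⌋₊,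
        α a * β b * g (sz x a + sz x b) * rr w x (a * b)| ≤ C * x ^ (1 / 2 - η) := by
  obtain ⟨η, C, hη, hC, h⟩ := bil3 hw
  have hK0 : 0 ≤ K := by simpa using (abs_nonneg _).trans (hK 1 0)
  have hm := hw.pos
  have hl : ∀ᶠ x : ℝ in atTop, 1 + Real.log (2 * x) ≤ x ^ (η / 8) := by
    filter_upwards [(isLittleO_log_rpow_atTop (show 0 < η / 8 by positivity)).bound one_half_pos,
      (tendsto_rpow_atTop (show 0 < η / 8 by positivity)).eventually_ge_atTop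
        (2 * (1 + Real.log 2)), eventually_ge_atTop 1] with x a1 a2 hx
    rw [Real.norm_of_nonneg (Real.log_nonneg hx), Real.norm_of_nonneg (by positivity)] at a1
    rw [Real.log_mul two_ne_zero (by positivity)]
    linarith
  refine ⟨η / 4, 2 * (1 + K) * C + 2 * K * ∫ t, w t, by positivity, by positivity, ?_⟩
  filter_upwards [h, hl, (tendsto_rpow_atTop (half_pos hη)).eventually_ge_atTop 10000,
    eventually_ge_atTop 1] with x h hl hy hx α β hα hβ h2 h3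
  have hx0 : 0 < x := one_pos.trans_le hx
  obtain ⟨J, hJ1, hJ2⟩ : ∃ J : ℕ, x ^ (η / 2) ≤ J ∧ (J : ℝ) + 1 ≤ 2 * x ^ (η / 2) :=
    ⟨_, Nat.le_ceil _, by linarith [Nat.ceil_lt_add_one (show 0 ≤ x ^ (η / 2) by positivity)]⟩
  have hJ : (10000 : ℝ) ≤ J := hy.trans hJ1
  have tr : ∀ γ : ℕ → ℝ, (∀ a, |γ a| ≤ 1) → (∀ a, |if sz x a ≤ 0.4998 then γ a else 0| ≤ 1) ∧
      ∀ a, (if sz x a ≤ 0.4998 then γ a else 0) ≠ 0 → sz x a ≤ 0.4998 := fun γ hγ =>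
    ⟨fun a => by split_ifs <;> simp [hγ], fun a ha => by_contra fun h' => ha (if_neg h')⟩
  have main := typ2_aux hw hK h1 hs hx hJ h (tr α hα).1 (tr β hβ).1 (tr α hα).2 (tr β hβ).2
  refine le_of_eq_of_le (congrArg _ (sum_congr rfl fun a _ => sum_congr rfl fun b _ => ?_))
    (main.trans ?_)
  · by_cases e1 : α a = 0
    · simp [e1]
    by_cases e2 : β b = 0
    · simp [e2]
    by_cases e3 : g (sz x a + sz x b) = 0
    · simp [e3]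
    have := hs _ e3
    rw [if_pos (by linarith [h3 b e2]), if_pos (by linarith [h2 a e1])]
  have q1 : x ^ (η / 2) * x ^ (1 / 2 - η) ≤ x ^ (1 / 2 - η / 4) := by
    rw [← Real.rpow_add hx0]
    exact Real.rpow_le_rpow_of_exponent_le hx (by linarith)
  have q2 : √x * (x ^ (η / 8)) ^ 2 = x ^ (1 / 2 - η / 4) * x ^ (η / 2) := by
    rw [Real.sqrt_eq_rpow, ← Real.rpow_mul_natCast hx0.le, ← Real.rpow_add hx0,
      ← Real.rpow_add hx0]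
    congr 1
    push_cast
    ring
  have q3 : √x * (1 + Real.log (2 * x)) ^ 2 / J ≤ x ^ (1 / 2 - η / 4) := by
    have := exc_log hx
    rw [div_le_iff₀ (by linarith)]
    calc _ ≤ √x * (x ^ (η / 8)) ^ 2 := by gcongr
      _ ≤ _ := by rw [q2]; gcongr
  calc _ ≤ (1 + K) * (2 * x ^ (η / 2) * (C * x ^ (1 / 2 - η))) +
        2 * K * (∫ t, w t) * x ^ (1 / 2 - η / 4) := by gcongr
    _ ≤ _ := by linarith [mul_le_mul_of_nonneg_left q1 (show 0 ≤ 2 * (1 + K) * C by positivity)]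

end Pool.Agent.Lib.MP_7d48f8_nt
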