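import Pool.Agent.Lib.MP_7d48f8_nt.V.Typ1
import Pool.Agent.Lib.MP_7d48f8_nt.V.Typ2

/-! The remainder terms summed against the von Mangoldt function. -/

noncomputable section

namespace Pool.Agent.Lib.MP_7d48f8_nt

open Finset MeasureTheory Filter Topology

open ArithmeticFunction in
theorem vau_id (M1 L1 : ArithmeticFunction ℝ) :
    vonMangoldt = L1 + M1 * ArithmeticFunction.log - (M1 * L1) * (zeta : ArithmeticFunction ℝ) +
      ((moebius : ArithmeticFunction ℝ) - M1) *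
        ((vonMangoldt - L1) * (zeta : ArithmeticFunction ℝ)) := by
  have h1 : (moebius : ArithmeticFunction ℝ) * (zeta : ArithmeticFunction ℝ) = 1 :=
    coe_moebius_mul_coe_zeta
  rw [← vonMangoldt_mul_zeta]
  linear_combination (L1 - vonMangoldt) * h1

theorem vau_conv (f h : ArithmeticFunction ℝ) (F : ℕ → ℝ) (X : ℕ) (hF : ∀ d, X < d → F d = 0) :
    ∑ d ∈ Icc 1 X, (f * h) d * F d = ∑ a ∈ Icc 1 X, ∑ b ∈ Icc 1 X, f a * h b * F (a * b) := by
  have e : Icc 1 X = Ioc 0 X := by ext n; simp [Nat.succ_le_iff]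
  rw [e, ← sum_product', ← sum_filter_of_ne (p := fun p : ℕ × ℕ => p.1 * p.2 ≤ X)
      (fun p _ h => not_lt.1 fun h' => h (by rw [hF _ h', mul_zero])),
    ← sum_fiberwise_of_maps_to (g := fun p : ℕ × ℕ => p.1 * p.2) (t := Ioc 0 X) fun p hp => by
      simp only [mem_filter, mem_product, mem_Ioc] at hp ⊢
      exact ⟨Nat.mul_pos hp.1.1.1 hp.1.2.1, hp.2⟩]
  refine sum_congr rfl fun d hd => ?_
  rw [mem_Ioc] at hd
  rw [ArithmeticFunction.mul_apply, sum_mul,
    Nat.divisorsAntidiagonal_eq_prod_filter_of_le hd.1.ne' hd.2, filter_filter]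
  refine sum_congr (filter_congr fun p _ => ⟨fun h => ⟨h ▸ hd.2, h⟩, fun h => h.2⟩) fun p hp => ?_
  rw [(mem_filter.1 hp).2.2]

theorem vau_abs {f h : ArithmeticFunction ℝ} (hf : ∀ n, |f n| ≤ 1)
    (hh : ∀ n, |h n| ≤ ArithmeticFunction.vonMangoldt n) (b : ℕ) : |(f * h) b| ≤ Real.log b := by
  rw [ArithmeticFunction.mul_apply, ← ArithmeticFunction.vonMangoldt_sum,
    ← Nat.sum_divisorsAntidiagonal' fun _ j => ArithmeticFunction.vonMangoldt j]
  refine (abs_sum_le_sum_abs _ _).trans (sum_le_sum fun p _ => ?_)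
  rw [abs_mul]
  exact (mul_le_of_le_one_left (abs_nonneg _) (hf _)).trans (hh _)

theorem vau_sz (x : ℝ) {a b : ℕ} (ha : a ≠ 0) (hb : b ≠ 0) : sz x (a * b) = sz x a + sz x b := by
  rw [sz, sz, sz, Nat.cast_mul, Real.log_mul (by exact_mod_cast ha) (by exact_mod_cast hb), add_div]

theorem vau_supp (x : ℝ) {f h : ArithmeticFunction ℝ} {b : ℕ} (hb : (f * h) b ≠ 0) :
    ∃ u v, f u ≠ 0 ∧ h v ≠ 0 ∧ sz x b = sz x u + sz x v := by
  rw [ArithmeticFunction.mul_apply] at hb
  obtain ⟨p, hp, h0⟩ := exists_ne_zero_of_sum_ne_zero hb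
  refine ⟨p.1, p.2, left_ne_zero_of_mul h0, right_ne_zero_of_mul h0, ?_⟩
  rw [← (Nat.mem_divisorsAntidiagonal.1 hp).1]
  exact vau_sz x (Nat.left_ne_zero_of_mem_divisorsAntidiagonal hp)
    (Nat.right_ne_zero_of_mem_divisorsAntidiagonal hp)

theorem vau_step {x : ℝ} (hx : 1 ≤ Real.log (2 * x)) {a : ℕ} (ha : 0 < a) :
    sz x a ≤ sz x (a + 1) ∧ sz x (a + 1) - sz x a ≤ 1 / a := by
  have h0 : (0 : ℝ) < a := by exact_mod_cast ha
  have h1 : Real.log a ≤ Real.log (a + 1) := Real.log_le_log h0 (by linarith)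
  have h2 : Real.log (a + 1) - Real.log a ≤ 1 / a := by
    rw [← Real.log_div (by linarith) h0.ne', add_div, div_self h0.ne']
    linarith [Real.log_le_sub_one_of_pos (show 0 < 1 + 1 / (a : ℝ) by positivity)]
  rw [sz, sz, Nat.cast_succ, ← sub_div]
  exact ⟨div_le_div_of_nonneg_right h1 (by linarith),
    (div_le_self (by linarith) hx).trans h2⟩

theorem vau_le {x σ : ℝ} (hx : 1 ≤ x) {n : ℕ} (h : sz x n ≤ σ) : (n : ℝ) ≤ (2 * x) ^ σ :=
  Real.le_rpow_of_log_le (by linarith) ((div_le_iff₀ (exc_log hx)).1 h)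

theorem vau_lip {g : ℝ → ℝ} {K : ℝ} (hK : ∀ s t, |g s - g t| ≤ K * |s - t|)
    (h1 : ∀ t, |g t| ≤ 1) (hs : ∀ t, g t ≠ 0 → t ≤ 0.5711) {s s' t δ : ℝ} (h0 : 0 ≤ s)
    (ht : 0 ≤ t) (hss : s ≤ s') (hδ : s' - s ≤ δ) :
    |g (s' + t) - g (s + t)| ≤ (1 + K) * δ ∧
      |s' * g (s' + t) - s * g (s + t)| ≤ (1 + K) * δ := by
  have hK0 : 0 ≤ K := by simpa using (abs_nonneg _).trans (hK 1 0)
  have h2 : |g (s' + t) - g (s + t)| ≤ K * δ := by
    refine (hK _ _).trans (mul_le_mul_of_nonneg_left ?_ hK0)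
    rw [add_sub_add_right_eq_sub, abs_of_nonneg (by linarith)]
    exact hδ
  refine ⟨by nlinarith, ?_⟩
  by_cases h3 : s ≤ 1
  · have h4 : |(s' - s) * g (s' + t)| ≤ δ := by
      rw [abs_mul, abs_of_nonneg (by linarith : 0 ≤ s' - s)]
      exact (mul_le_of_le_one_right (by linarith) (h1 _)).trans hδ
    have h5 : |s * (g (s' + t) - g (s + t))| ≤ K * δ := by
      rw [abs_mul, abs_of_nonneg h0]
      exact (mul_le_of_le_one_left (abs_nonneg _) h3).trans h2
    rw [show s' * g (s' + t) - s * g (s + t) =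
      (s' - s) * g (s' + t) + s * (g (s' + t) - g (s + t)) by ring]
    linarith [abs_add_le ((s' - s) * g (s' + t)) (s * (g (s' + t) - g (s + t)))]
  · have h4 : g (s + t) = 0 := by
      by_contra h
      have := hs _ h
      norm_num at this
      linarith
    have h5 : g (s' + t) = 0 := by
      by_contra h
      have := hs _ h
      norm_num at this
      linarith
    rw [h4, h5, mul_zero, mul_zero, sub_zero, abs_zero]
    exact mul_nonneg (by linarith) (by linarith)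

/-- The truncation of an arithmetic function to small sizes. -/
def vau_tr (x : ℝ) (f : ArithmeticFunction ℝ) : ArithmeticFunction ℝ :=
  ⟨fun d => if sz x d < 0.0714 then f d else 0, by simp⟩

theorem vau_tr_abs (x : ℝ) (f : ArithmeticFunction ℝ) (d : ℕ) :
    |vau_tr x f d| ≤ |f d| ∧ |(f - vau_tr x f) d| ≤ |f d| ∧
      (vau_tr x f d ≠ 0 → sz x d < 0.0714) ∧ ((f - vau_tr x f) d ≠ 0 → 0.0714 ≤ sz x d) := by
  have e : vau_tr x f d = if sz x d < 0.0714 then f d else 0 := rfl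
  rw [sub_eq_add_neg, ArithmeticFunction.add_apply, ArithmeticFunction.neg_apply, e]
  by_cases h : sz x d < 0.0714
  · simp [h]
  · simp [h, not_lt.1 h]

/-- `vau_id` with `M1`, `L1` the truncations of `μ`, `Λ` to `sz x d < 0.0714`; `vau_conv` with
`F d = g (sz x d) * rr w x d`, `sz x (a b) = sz x a + sz x b`.  The term `L1` vanishes.  `typ1` with
`ω a b = sz x a * g (sz x a + sz x b)`, `β = M1` (factor `log (2 x)`), and with
`ω a b = g (sz x a + sz x b)`, `β = (M1 * L1) / log (2 x)` (`|(M1 * L1) b| ≤ log b` by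
`vonMangoldt_sum`, support `sz x b ≤ 0.1428`); `|sz x (a + 1) - sz x a| ≤ 1 / a`.  `typ2` with
`α = μ - M1` and `β` equal to `((Λ - L1) * ζ) / log (2 x)` on `b ≤ 2 x` and `0` otherwise. -/
theorem vau {w : ℝ → ℝ} (hw : Bump w) {g : ℝ → ℝ} {K : ℝ} (hK : ∀ s t, |g s - g t| ≤ K * |s - t|)
    (h1 : ∀ t, |g t| ≤ 1) (hs : ∀ t, g t ≠ 0 → 0.1 ≤ t ∧ t ≤ 0.5711) :
    ∃ η C : ℝ, 0 < η ∧ 0 < C ∧ ∀ᶠ x : ℝ in atTop,
      |∑ d ∈ Icc 1 ⌊2 * x⌋₊, ArithmeticFunction.vonMangoldt d * (g (sz x d) * rr w x d)| ≤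
        C * Real.log (2 * x) * x ^ (1 / 2 - η) := by
  have hs' : ∀ t, g t ≠ 0 → t ≤ 0.5711 := fun t ht => (hs t ht).2
  have hK0 : 0 ≤ K := by simpa using (abs_nonneg _).trans (hK 1 0)
  obtain ⟨C₁, hC₁, H₁⟩ := typ1 hw
  obtain ⟨η, C₂, hη, hC₂, H₂⟩ := typ2 hw hK h1 hs'
  refine ⟨min η (1 / 20), 2 * (C₁ * (1 + (1 + K))) + C₂, lt_min hη (by norm_num), by positivity, ?_⟩
  filter_upwards [H₂, eventually_ge_atTop 2,
    str_pow (σ := 0.5711) (τ := 3 / 5 + 0.01) (ε := 0.01) (by norm_num) (by norm_num),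
    str_pow (σ := 0.1428) (τ := 1 / 6 + 0.01) (ε := 0.01) (by norm_num) (by norm_num)]
    with x H₂ hx2 p1 p2
  rw [add_sub_cancel_right] at p1 p2
  have hx : 1 ≤ x := by linarith
  have hl : 0 < Real.log (2 * x) := exc_log hx
  have hl1 : 1 ≤ Real.log (2 * x) := by
    rw [Real.le_log_iff_exp_le (by linarith)]
    linarith [Real.exp_one_lt_d9]
  set X := ⌊2 * x⌋₊ with hX
  have hX1 : x ^ (3 / 5 : ℝ) ≤ X := by
    have h2 : x ^ (3 / 5 : ℝ) ≤ x ^ (1 : ℝ) := Real.rpow_le_rpow_of_exponent_le hx (by norm_num)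
    rw [Real.rpow_one] at h2
    linarith [Nat.lt_floor_add_one (2 * x)]
  have hX2 : (X : ℝ) ≤ 2 * x := Nat.floor_le (by linarith)
  have hF : ∀ d, X < d → g (sz x d) * rr w x d = 0 := fun d hd => by
    by_contra h
    have h2 := ((vau_le hx (hs' _ (left_ne_zero_of_mul h))).trans p1).trans hX1
    exact absurd hd (not_lt.2 (by exact_mod_cast h2))
  set μ' : ArithmeticFunction ℝ := (ArithmeticFunction.moebius : ArithmeticFunction ℝ) with hμ
  set ζ' : ArithmeticFunction ℝ := (ArithmeticFunction.zeta : ArithmeticFunction ℝ) with hζ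
  set Λ' : ArithmeticFunction ℝ := ArithmeticFunction.vonMangoldt with hΛ
  have hμ1 : ∀ n, |μ' n| ≤ 1 := fun n => by
    rw [hμ, ArithmeticFunction.intCoe_apply]
    exact_mod_cast ArithmeticFunction.abs_moebius_le_one
  have hζ1 : ∀ n, n ≠ 0 → ζ' n = 1 := fun n hn => by
    rw [hζ, ArithmeticFunction.natCoe_apply, ArithmeticFunction.zeta_apply_ne hn, Nat.cast_one]
  have hζ2 : ∀ n, |ζ' n| ≤ 1 := fun n => by
    rcases eq_or_ne n 0 with rfl | hn
    · simp
    · rw [hζ1 n hn, abs_one]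
  have hΛ1 : ∀ n, |Λ' n| = Λ' n := fun n => abs_of_nonneg ArithmeticFunction.vonMangoldt_nonneg
  set M1 := vau_tr x μ' with hM
  set L1 := vau_tr x Λ' with hL
  have hM1 : ∀ n, |M1 n| ≤ 1 := fun n => (vau_tr_abs x μ' n).1.trans (hμ1 n)
  have hsupp : ∀ a b : ℕ, 0 < b → g (sz x a + sz x b) ≠ 0 → (a : ℝ) * b ≤ x ^ (3 / 5 : ℝ) :=
    fun a b hb h => by
      rcases eq_or_ne a 0 with rfl | ha
      · rw [Nat.cast_zero, zero_mul]; positivity
      · rw [← vau_sz x ha hb.ne'] at h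
        rw [← Nat.cast_mul]
        exact (vau_le hx (hs' _ h)).trans p1
  have hlip := fun (a b : ℕ) (ha : 0 < a) => vau_lip hK h1 hs' (exc_sz hx a) (exc_sz hx b)
    (vau_step hl1 ha).1 (vau_step hl1 ha).2
  have hML : ∀ b, (M1 * L1) b ≠ 0 → sz x b ≤ 0.1428 := fun b hb => by
    obtain ⟨u, v, hu, hv, e⟩ := vau_supp x hb
    have h2 := (vau_tr_abs x μ' u).2.2.1 hu
    have h3 := (vau_tr_abs x Λ' v).2.2.1 hv
    norm_num at h2 h3 ⊢
    linarith
  have T1 := H₁ (fun a b => sz x a * g (sz x a + sz x b)) M1 (1 + K) x X hx (by positivity) hX1 hX2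
    (fun a b => by
      rcases eq_or_ne (g (sz x a + sz x b)) 0 with h | h
      · simp [h]
      · have h2 := hs' _ h
        have h3 := exc_sz hx b
        rw [abs_mul, abs_of_nonneg (exc_sz hx a)]
        exact mul_le_one₀ (by norm_num at h2; linarith) (abs_nonneg _) (h1 _))
    (fun a b ha => by simpa only [mul_one_div] using (hlip a b ha).2)
    (fun a b hb h => hsupp a b hb (right_ne_zero_of_mul h)) hM1
    fun b hb => (vau_le hx (((vau_tr_abs x μ' b).2.2.1 hb).le.trans (by norm_num))).trans p2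
  have T2 := H₁ (fun a b => g (sz x a + sz x b)) (fun b => (M1 * L1) b / Real.log (2 * x)) (1 + K)
    x X hx (by positivity) hX1 hX2 (fun a b => h1 _)
    (fun a b ha => by simpa only [mul_one_div] using (hlip a b ha).1) hsupp
    (fun b => by
      rcases eq_or_ne ((M1 * L1) b) 0 with h | h
      · simp [h]
      · rw [abs_div, abs_of_pos hl]
        refine (div_le_div_of_nonneg_right (vau_abs hM1
          (fun n => (vau_tr_abs x Λ' n).1.trans (hΛ1 n).le) b) hl.le).trans ?_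
        exact (hML b h).trans (by norm_num))
    fun b hb => (vau_le hx (hML b (left_ne_zero_of_mul hb))).trans p2
  have T3 := H₂ (fun a => (μ' - M1) a)
    (fun b => if b ≤ X then (ζ' * (Λ' - L1)) b / Real.log (2 * x) else 0)
    (fun a => (vau_tr_abs x μ' a).2.1.trans (hμ1 a))
    (fun b => by
      split_ifs with h
      · rw [abs_div, abs_of_pos hl, div_le_one hl]
        refine (vau_abs hζ2 (fun n => (vau_tr_abs x Λ' n).2.1.trans (hΛ1 n).le) b).trans ?_
        rcases Nat.eq_zero_or_pos b with rfl | hb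
        · simpa using hl.le
        · exact Real.log_le_log (by exact_mod_cast hb) (le_trans (by exact_mod_cast h) hX2)
      · simp)
    (fun a ha => (vau_tr_abs x μ' a).2.2.2 ha)
    fun b hb => by
      have h2 : (ζ' * (Λ' - L1)) b ≠ 0 := fun h => hb (by simp [h])
      obtain ⟨u, v, -, hv, e⟩ := vau_supp x h2
      linarith [(vau_tr_abs x Λ' v).2.2.2 hv, exc_sz hx u]
  have key : ∑ d ∈ Icc 1 X, Λ' d * (g (sz x d) * rr w x d) = Real.log (2 * x) *
      (∑ a ∈ Icc 1 X, ∑ b ∈ Icc 1 X, M1 b * (sz x a * g (sz x a + sz x b)) * rr w x (a * b) -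
        ∑ a ∈ Icc 1 X, ∑ b ∈ Icc 1 X,
          (M1 * L1) b / Real.log (2 * x) * g (sz x a + sz x b) * rr w x (a * b) +
        ∑ a ∈ Icc 1 X, ∑ b ∈ Icc 1 X, (μ' - M1) a *
          (if b ≤ X then (ζ' * (Λ' - L1)) b / Real.log (2 * x) else 0) *
            g (sz x a + sz x b) * rr w x (a * b)) := by
    have e : ∀ d, Λ' d * (g (sz x d) * rr w x d) =
        (ArithmeticFunction.log * M1) d * (g (sz x d) * rr w x d) -
          (ζ' * (M1 * L1)) d * (g (sz x d) * rr w x d) +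
          ((μ' - M1) * (ζ' * (Λ' - L1))) d * (g (sz x d) * rr w x d) := fun d => by
      have e1 : Λ' = L1 + (ArithmeticFunction.log * M1 + -(ζ' * (M1 * L1)) +
          (μ' - M1) * (ζ' * (Λ' - L1))) := (vau_id M1 L1).trans (by ring)
      have e2 : L1 d * g (sz x d) = 0 := by
        by_contra h
        have h2 := (vau_tr_abs x Λ' d).2.2.1 (left_ne_zero_of_mul h)
        have h3 := (hs _ (right_ne_zero_of_mul h)).1
        norm_num at h2 h3
        linarith
      have e3 := congrArg (fun f : ArithmeticFunction ℝ => f d) e1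
      simp only [ArithmeticFunction.add_apply, ArithmeticFunction.neg_apply] at e3
      linear_combination (g (sz x d) * rr w x d) * e3 + rr w x d * e2
    rw [sum_congr rfl fun d _ => e d, sum_add_distrib, sum_sub_distrib, vau_conv _ _ _ X hF,
      vau_conv _ _ _ X hF, vau_conv _ _ _ X hF]
    simp only [← sum_sub_distrib, ← sum_add_distrib, mul_sum]
    refine sum_congr rfl fun a ha => sum_congr rfl fun b hb => ?_
    rw [mem_Icc] at ha hb
    rw [vau_sz x (by omega) (by omega), if_pos hb.2, hζ1 a (by omega),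
      ArithmeticFunction.log_apply, show sz x a * g (sz x a + sz x b) =
        Real.log a / Real.log (2 * x) * g (sz x a + sz x b) from rfl]
    field_simp
  have q1 : x ^ (9 / 20 : ℝ) ≤ x ^ (1 / 2 - min η (1 / 20)) :=
    Real.rpow_le_rpow_of_exponent_le hx (by linarith [min_le_right η (1 / 20)])
  have q2 : x ^ (1 / 2 - η) ≤ x ^ (1 / 2 - min η (1 / 20)) :=
    Real.rpow_le_rpow_of_exponent_le hx (by linarith [min_le_left η (1 / 20)])
  have q3 := mul_le_mul_of_nonneg_left q1 (show 0 ≤ C₁ * (1 + (1 + K)) by positivity)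
  have q4 := mul_le_mul_of_nonneg_left q2 hC₂.le
  rw [key, abs_mul, abs_of_pos hl, mul_comm _ (Real.log (2 * x)), mul_assoc]
  refine mul_le_mul_of_nonneg_left (((abs_add_le _ _).trans
    (add_le_add ((abs_sub _ _).trans (add_le_add T1 T2)) T3)).trans ?_) hl.le
  linarith

end Pool.Agent.Lib.MP_7d48f8_nt
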